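import Mathlib
import Pool.Agent.helper26.RRank

/-!
# Project mr: minors of tensors of large slice rank (MP_b48e27_co), definitions (helper35)

* `Full3 M`: an order 3 tensor `M` on a finite index set `ι` (all three sides of size `card ι`) which
  vanishes on no triple of subspaces of total codimension less than `card ι` (so its slice rank is
  `card ι`).
* order types: `OT`, `Low` (order `d`), `Good3` (order 3).
-/

set_option autoImplicit false

open Finset

namespace Pool.Agent.helper35.MR

open Pool.Agent.RRank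

/-! ## Full tensors of order 3 -/

/-- the trilinear form of a tensor -/
def ev3 {ι K : Type} [Fintype ι] [Field K] (M : ι → ι → ι → K) (u v w : ι → K) : K :=
  ∑ i, ∑ j, ∑ k, M i j k * (u i * v j * w k)

/-- full tensors: no triple of subspaces of total codimension less than `card ι` on which `M` vanishes -/
def Full3 {ι K : Type} [Fintype ι] [Field K] (M : ι → ι → ι → K) : Prop :=
  ∀ U V W : Submodule K (ι → K),
    2 * Fintype.card ι < Module.finrank K U + Module.finrank K V + Module.finrank K W →
    ∃ u ∈ U, ∃ v ∈ V, ∃ w ∈ W, ev3 M u v w ≠ 0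

/-! ## Order types -/

/-- two tuples of integers have the same (weak) order type -/
def SameOT {d : ℕ} (x y : Fin d → ℤ) : Prop := ∀ α β, x α < x β ↔ y α < y β

/-- functions of the order type -/
def OT {d : ℕ} {C : Type} (V : (Fin d → ℤ) → C) : Prop := ∀ x y, SameOT x y → V x = V y

/-- sums of functions of the order type each of which does not depend on one of the variables -/
def Low {d : ℕ} {K : Type} [Field K] (V : (Fin d → ℤ) → K) : Prop :=
  ∃ g : Fin d → (Fin d → ℤ) → K, (∀ α, OT (g α)) ∧
    (∀ α x y, (∀ β, β ≠ α → x β = y β) → g α x = g α y) ∧ ∀ x, V x = ∑ α, g α x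

/-- alternating sum of a function over a cube -/
def alt {d : ℕ} {Q : Fin d → Type} {K : Type} [Field K] (T : ((α : Fin d) → Q α) → K)
    (x y : (α : Fin d) → Q α) : K :=
  ∑ e : Fin d → Bool, (∏ α, if e α then (-1 : K) else 1) * T (fun α => if e α then y α else x α)

/-- functions of the order type of three integers -/
def OT3 {C : Type} (V : ℤ → ℤ → ℤ → C) : Prop :=
  ∀ x y z x' y' z', cmp x y = cmp x' y' → cmp y z = cmp y' z' → cmp x z = cmp x' z' →
    V x y z = V x' y' z'

/-- sums of functions of the order types of pairs -/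
def Low3 {K : Type} [Field K] (V : ℤ → ℤ → ℤ → K) : Prop :=
  ∃ a b c : Ordering → K, ∀ x y z, V x y z = a (cmp x y) + b (cmp y z) + c (cmp x z)

/-- there is a full minor with sides `l`: `l` integers `x i`, `l` integers `y i`, `l` integers `z i` -/
def Good3 {K : Type} [Field K] (V : ℤ → ℤ → ℤ → K) (l : ℕ) : Prop :=
  ∃ x y z : Fin l → ℤ, Full3 (fun i j k => V (x i) (y j) (z k))

/-- normal form K: only ties `x = y` matter, with an extra value `κ` if `x = y < z` -/
def KForm {K : Type} [Field K] (V : ℤ → ℤ → ℤ → K) (a b c : Ordering → K) (κ : K) : Prop :=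
  ∀ x y z, z ≠ x → z ≠ y →
    V x y z = a (cmp x y) + b (cmp y z) + c (cmp x z) + (if x = y ∧ y < z then κ else 0)

/-- normal form B: `Low3` plus `δ` at triple ties -/
def BForm {K : Type} [Field K] (V : ℤ → ℤ → ℤ → K) (a b c : Ordering → K) (δ : K) : Prop :=
  ∀ x y z, V x y z = a (cmp x y) + b (cmp y z) + c (cmp x z) + (if x = y ∧ y = z then δ else 0)

/-! ## Positions -/

/-- the strict word `xyz xyz … xyz`: `x i = 3 i`, `y i = 3 i + 1`, `z i = 3 i + 2` -/
def strictM {K : Type} (V : ℤ → ℤ → ℤ → K) (l : ℕ) : Fin l → Fin l → Fin l → K :=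
  fun i j k => V (3 * (i : ℕ)) (3 * (j : ℕ) + 1) (3 * (k : ℕ) + 2)

/-- positions of the word `x y z P … P` (`P` a triple point), index `none` for the first letters -/
def bpos {n : ℕ} (s : ℤ) : Option (Fin n) → ℤ
  | none => s
  | some i => 3 + (i : ℕ)

/-- positions of the letters `x`, `y` of the word `τ (xy) z (xy) z …` -/
def kposXY {n : ℕ} (s : ℤ) : Option (Fin n) → ℤ
  | none => s
  | some i => 10 + 2 * (i : ℕ)

/-- positions of the letter `z` of the word `τ (xy) z (xy) z …` -/
def kposZ {n : ℕ} (s : ℤ) : Option (Fin n) → ℤ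
  | none => s
  | some i => 11 + 2 * (i : ℕ)

/-- basis `e_none`, `e_i - e_none` -/
def bas {n : ℕ} {K : Type} [Field K] : Option (Fin n) → Option (Fin n) → K
  | none => Pi.single none 1
  | some i => Pi.single (some i) 1 - Pi.single none 1

/-- the predecessor of `some i` -/
def prv {n : ℕ} (i : Fin n) : Option (Fin n) :=
  if h : (i : ℕ) = 0 then none else some ⟨(i : ℕ) - 1, by omega⟩

/-- basis `e_none`, `e_i - e_(i-1)` -/
def basZ {n : ℕ} {K : Type} [Field K] : Option (Fin n) → Option (Fin n) → K
  | none => Pi.single none 1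
  | some i => Pi.single (some i) 1 - Pi.single (prv i) 1

/-- standard basis -/
def bas1 {n : ℕ} {K : Type} [Field K] (i : Option (Fin n)) : Option (Fin n) → K := Pi.single i 1

/-- the equations which hold for a tensor `t` on `Option (Fin n)`, diagonal with value `κ` on `Fin n`, if it is
not full: `s` is the partition of `Fin n` (0, 1, 2), `e_none + ∑ a_i e_i`, `e_none + ∑ b_j e_j`,
`e_none + ∑ c_k e_k` and the `e_i` with `s i ≠ 0`, `s i ≠ 1`, `s i ≠ 2` span the three subspaces -/
structure Viol {n : ℕ} {K : Type} [Field K] (t : Option (Fin n) → Option (Fin n) → Option (Fin n) → K)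
    (κ : K) (s : Fin n → Fin 3) (a b c : Fin n → K) : Prop where
  sa : ∀ i, s i ≠ 0 → a i = 0
  sb : ∀ i, s i ≠ 1 → b i = 0
  sc : ∀ i, s i ≠ 2 → c i = 0
  E1 : ∀ i j, s i ≠ 0 → s j ≠ 1 → t (some i) (some j) none + (if i = j then κ * c i else 0) = 0
  E2 : ∀ i k, s i ≠ 0 → s k ≠ 2 → t (some i) none (some k) + (if i = k then κ * b i else 0) = 0
  E3 : ∀ j k, s j ≠ 1 → s k ≠ 2 → t none (some j) (some k) + (if j = k then κ * a j else 0) = 0
  E4 : ∀ i, s i ≠ 0 → t (some i) none none + ∑ j, b j * t (some i) (some j) none +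
    ∑ k, c k * t (some i) none (some k) = 0
  E5 : ∀ j, s j ≠ 1 → t none (some j) none + ∑ i, a i * t (some i) (some j) none +
    ∑ k, c k * t none (some j) (some k) = 0
  E6 : ∀ k, s k ≠ 2 → t none none (some k) + ∑ i, a i * t (some i) none (some k) +
    ∑ j, b j * t none (some j) (some k) = 0
  E7 : t none none none + ∑ i, a i * t (some i) none none + ∑ j, b j * t none (some j) none +
    ∑ k, c k * t none none (some k) + ∑ i, ∑ j, a i * b j * t (some i) (some j) none +
    ∑ i, ∑ k, a i * c k * t (some i) none (some k) +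
    ∑ j, ∑ k, b j * c k * t none (some j) (some k) = 0

end Pool.Agent.helper35.MR
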