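import Pool.Agent.helper35.MR.Defs

/-!
# Project mr: specification, part A (order 3, tensors with boundedly many values) (helper35)

Final theorem: Q1 of MP_b48e27_co for `d = 3`, every family `R`, every field, for tensors with at most `m`
different values (`G` depends on `l` and `m` only), in particular over every finite field.

Every `XX_stmt : Prop` is a module `mr:XX`. File `Pool/Agent/<you>/MR/XX.lean`,
`import Pool.Agent.helper35.MR.SpecA`, namespace `Pool.Agent.helper35.MR`, `open Finset Pool.Agent.RRank`,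
`theorem XX (h : YY_stmt) ... : XX_stmt`; any other statement of the file may be a hypothesis (not
circularly), auxiliary lemmas are prefixed `XX_`.

In the comments: `a< = a lt`, `a= = a eq`, `a> = a gt`, `α = a< - a>`, `β = b< - b>`, `γ = c< - c>`.
-/

set_option autoImplicit false

open Finset

namespace Pool.Agent.helper35.MR

open Pool.Agent.RRank

/-! ## 1. Ramsey reduction, order `d` -/

/-- RAM: Ramsey theorem for order types. Finite Ramsey theorem for `r`-subsets, `r ≤ d` (prove it first by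
the usual induction, or take it from the literature in `Pool/Agent`), applied successively to the
colourings `S ↦ (the colours of all tuples with values in S)`: a tuple `i : Fin d → Fin N` with `r` different
values is a surjection onto its set of values composed with the increasing enumeration, and the
surjection `Fin d → Fin r` is the order type. Colour the `r`-subset `S` of `Fin n` by the function
`(Fin d → Fin r) → Fin m`, `g ↦ c (e_S ∘ g)`. -/
def RAM_stmt : Prop := ∀ d N m : ℕ, ∃ n : ℕ, ∀ c : (Fin d → Fin n) → Fin m,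
  ∃ h : Fin N → Fin n, StrictMono h ∧
    ∀ i j : Fin d → Fin N, (∀ α β, i α < i β ↔ j α < j β) → c (fun α => h (i α)) = c (fun α => h (j α))

/-- CUB: if every `Q α` has a colouring with `s` colours such that the alternating sum of `T` over every cube with
sides of one colour vanishes, then `T` is a sum of at most `d s^d` slices. For every colour vector
`δ : Fin d → Fin s` for which there is a point `x^δ` of this colour, on the box of points of colour `δ` we have
`T(y) = - ∑_{e ≠ 1} ± T(x^δ with the coordinates of e replaced by y)`; the term of `e` does not depend on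
some coordinate `α ∉ e` (the least one, say), collect them for every `α`: `T(y) = ∑_α g_{δ,α}(y)` on the box,
and `[y has colour δ] g_{δ,α}(y) = [y_α has colour δ_α] * (function of the other coordinates)` is a slice. -/
def CUB_stmt : Prop := ∀ (d s : ℕ), 2 ≤ d → ∀ (K : Type) [Field K] (Q : Fin d → Type)
  (T : ((α : Fin d) → Q α) → K) (c : (α : Fin d) → Q α → Fin s),
  (∀ x y : (α : Fin d) → Q α, (∀ α, c α (x α) = c α (y α)) → alt T x y = 0) →
  SumOf (slices d) T (d * s ^ d)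

/-- BLK: construction of `n` blocks. One block after the other: if the blocks `t' < t` are constructed, colour
`u ∈ Q α` by the function which maps a tuple `y` of the other coordinates with `y_β ∈ {f β t' ε}` to `T(u, y)`: at most
`m^((2n)^(d-1))` colours (a fixed number `s`; embed the set of colours in `Fin s`). By CUB, as the slice
rank is more than `d s^d`, there are two points `x`, `y` of the same colour with nonzero alternating
sum: block `t`. (`SumOf _ r` implies `SumOf _ r'` for `r ≤ r'`: add zeros.) `G = d s^d + 1`. Uses CUB. -/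
def BLK_stmt : Prop := ∀ (d m n : ℕ), 2 ≤ d → ∃ G : ℕ, ∀ (K : Type) [Field K] (val : Fin m → K)
  (Q : Fin d → Type) (T : ((α : Fin d) → Q α) → Fin m),
  (G : ℕ∞) ≤ rank (slices d) (fun x => val (T x)) →
  ∃ f : (α : Fin d) → Fin n → Bool → Q α,
    (∀ t, alt (fun x => val (T x)) (fun α => f α t false) (fun α => f α t true) ≠ 0) ∧
    ∀ (i : Fin d → Fin n) (e e' : Fin d → Bool) (α : Fin d), (∀ β, β ≠ α → i β < i α) →
      (∀ β, β ≠ α → e β = e' β) →
      T (fun β => f β (i β) (e β)) = T (fun β => f β (i β) (e' β))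

/-- LW: a function of the order type which vanishes if one variable is larger than all the others and does
not vanish if all variables are equal is not `Low`. The alternating sum over the cube with vertices `0` and
`(1, 2, ..., d)` of a function which does not depend on one variable is zero; but only the vertex `0` has a
nonzero value. -/
def LW_stmt : Prop := ∀ (d : ℕ), 1 ≤ d → ∀ (K : Type) [Field K] (W : (Fin d → ℤ) → K), OT W →
  (∀ x : Fin d → ℤ, (∃ α, ∀ β, β ≠ α → x β < x α) → W x = 0) → W (fun _ => 0) ≠ 0 → ¬ Low W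

/-- P1: large slice rank implies an order type tensor which is not `Low`. Take the blocks of BLK for `n` given
by RAM for `N' = max N (d + 1)` and the colouring `i ↦ (e ↦ T(f(i), e))` (with values in a finite set with
`m^(2^d)` elements). Along `h` the values `T(f(h i), e)` depend only on `e` and on the order type of `i`, so they are
values `V_e(i)` of functions `V_e` of order types (every order type of `d` integers is that of a tuple of
`Fin (d + 1)`). `W = ∑_e ± val V_e` is as in LW (d ≥ 2: an index `α` is the strict maximum; the terms with `e α = false` and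
`e α = true` cancel), so not all `val V_e` are `Low` (sums and negatives of `Low` functions are `Low`). Uses
RAM, BLK, LW. -/
def P1_stmt : Prop := ∀ (d m N : ℕ), 2 ≤ d → ∃ G : ℕ, ∀ (K : Type) [Field K] (val : Fin m → K)
  (Q : Fin d → Type) (T : ((α : Fin d) → Q α) → Fin m),
  (G : ℕ∞) ≤ rank (slices d) (fun x => val (T x)) →
  ∃ V : (Fin d → ℤ) → Fin m, OT V ∧ ¬ Low (fun x => val (V x)) ∧
    ∃ f : (α : Fin d) → Fin N → Q α, ∀ i : Fin d → Fin N,
      T (fun α => f α (i α)) = V (fun α => ((i α : ℕ) : ℤ))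

/-! ## 2. Order 3: from `Full3` to the slice rank -/

/-- FS: a full tensor on `ι` has slice rank `card ι`. A slice `t` for the partition with the part `{α}` is
`a(x_α) b(x_β, x_γ)`; if there were a decomposition of the minor into `r < card ι` slices, let `U α` be the subspace of
the `u` with `∑_i a(f α i) u_i = 0` for all slices of direction `α` (codimension at most the number of these
slices); sum of the dimensions at least `3 card ι - r`; every slice vanishes on `U 0 × U 1 × U 2`. -/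
def FS_stmt : Prop := ∀ (K : Type) [Field K] (Q : Fin 3 → Type) (T : ((α : Fin 3) → Q α) → K)
  (ι : Type) [Fintype ι] (f : (α : Fin 3) → ι → Q α) (X : (α : Fin 3) → Finset (Q α)),
  (∀ α i, f α i ∈ X α) →
  Full3 (fun i j k => T (fun α => f α ((![i, j, k] : Fin 3 → ι) α))) →
  (Fintype.card ι : ℕ∞) ≤ rank (slices 3) (minor T X)

/-- CNV: conversion between `(Fin 3 → ℤ)` and three variables. (`SameOT` for `Fin 3` is equality of the three
`cmp`; `V x y z = V' ![x, y, z]`; a `Low3` representation gives a `Low` one with `g 0 x = b (cmp (x 1) (x 2))` etc.) -/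
def CNV_stmt : Prop := ∀ (C K : Type) [Field K] (val : C → K) (V' : (Fin 3 → ℤ) → C), OT V' →
  OT3 (fun x y z => V' ![x, y, z]) ∧
  (¬ Low (fun x => val (V' x)) → ¬ Low3 (fun x y z => val (V' ![x, y, z])))

/-- CMP: compression of positions: all positions can be taken in `{0, ..., 3l - 1}` (replace an integer `p` by the
number of positions less than `p`; for the positions it keeps and reflects the order). -/
def CMP_stmt : Prop := ∀ (K : Type) [Field K] (V : ℤ → ℤ → ℤ → K), OT3 V → ∀ l : ℕ, Good3 V l →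
  ∃ x y z : Fin l → Fin (3 * l),
    Full3 (fun i j k => V ((x i : ℕ) : ℤ) ((y j : ℕ) : ℤ) ((z k : ℕ) : ℤ))

/-! ## 3. Linear algebra for full tensors of order 3 -/

/-- TGT: tight triples of the diagonal tensor. Induction on `n`, coordinate `n`. If `u_n = 0` on `U`: project
`V`, `W` to the other coordinates (dimensions drop by at most one, equality iff `e_n ∈ V`). If none of
`u_n`, `v_n`, `w_n` vanishes identically: then `e_n ∉ V` (else `u_n w_n = 0` for all `u ∈ U`, `w ∈ W`), similarly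
`e_n ∉ W`; take `{u ∈ U : u_n = 0}` and the projections of `V`, `W`: the sum of the dimensions is at most
`2 (n - 1) + 1 < 2 n`. -/
def TGT_stmt : Prop := ∀ (K : Type) [Field K] (n : ℕ) (U V W : Submodule K (Fin n → K)),
  (∀ u ∈ U, ∀ v ∈ V, ∀ w ∈ W, ∑ i, u i * v i * w i = 0) →
  Module.finrank K U + Module.finrank K V + Module.finrank K W ≤ 2 * n ∧
  (Module.finrank K U + Module.finrank K V + Module.finrank K W = 2 * n →
    ∃ s : Fin n → Fin 3, (∀ u, u ∈ U ↔ ∀ i, s i = 0 → u i = 0) ∧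
      (∀ v, v ∈ V ↔ ∀ i, s i = 1 → v i = 0) ∧ (∀ w, w ∈ W ↔ ∀ i, s i = 2 → w i = 0))

/-- CHB: change of basis. If `p`, `q`, `r` are bases and the tensor of the values `ev3 M (p i) (q j) (r k)` is full then
`M` is full (`φ u = ∑ u_i p_i` is a linear automorphism, pull back the subspaces). -/
def CHB_stmt : Prop := ∀ (K : Type) [Field K] (ι : Type) [Fintype ι] (M : ι → ι → ι → K)
  (p q r : ι → ι → K), LinearIndependent K p → LinearIndependent K q → LinearIndependent K r →
  Full3 (fun i j k => ev3 M (p i) (q j) (r k)) → Full3 M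

/-- LI: the families `bas`, `basZ`, `bas1` are linearly independent. -/
def LI_stmt : Prop := ∀ (K : Type) [Field K] (n : ℕ),
  LinearIndependent K (bas : Option (Fin n) → Option (Fin n) → K) ∧
  LinearIndependent K (basZ : Option (Fin n) → Option (Fin n) → K) ∧
  LinearIndependent K (bas1 : Option (Fin n) → Option (Fin n) → K)

/-- EXT: the extension lemma. Let `t` vanish on `U × V × W` with sum of dimensions `> 2 (n + 1)`. `U' = {u ∈ U : u_none = 0}`
as a subspace of `K^n`, etc.: the diagonal tensor `κ` vanishes on `U' × V' × W'`, so the sum of their dimensions is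
at most `2 n` (TGT); the dimension drops by at most 1, so it drops by 1 each time, and the sum is `2 n`; TGT
gives `s` with `U' = {u : u_i = 0 if s i = 0}` etc. There is `u ∈ U` with `u_none = 1`; subtract an element of `U'`:
`u = e_none + ∑ a_i e_i` with `a` supported on `s = 0`. Similarly `v`, `w`. Now `Viol` are the equations: `t` vanishes on
`(e_i, e_j, w)`, `(e_i, v, e_k)`, `(u, e_j, e_k)`, `(e_i, v, w)`, `(u, e_j, w)`, `(u, v, e_k)`, `(u, v, w)` for the `e_i ∈ U'` etc.; the terms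
`κ b_i c_i`, `κ a_i b_i c_i` vanish since the supports are disjoint. Uses TGT. -/
def EXT_stmt : Prop := ∀ (K : Type) [Field K] (n : ℕ)
  (t : Option (Fin n) → Option (Fin n) → Option (Fin n) → K) (κ : K), κ ≠ 0 →
  (∀ i j k : Fin n, t (some i) (some j) (some k) = if i = j ∧ j = k then κ else 0) →
  ¬ Full3 t → ∃ (s : Fin n → Fin 3) (a b c : Fin n → K), Viol t κ s a b c

/-- SYM: symmetries. (Exchange the subspaces.) -/
def SYM_stmt : Prop := ∀ (K : Type) [Field K] (V : ℤ → ℤ → ℤ → K) (l : ℕ),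
  (Good3 (fun x y z => V y x z) l → Good3 V l) ∧ (Good3 (fun x y z => V x z y) l → Good3 V l) ∧
  (Good3 (fun x y z => V (-x) (-y) (-z)) l → Good3 V l)

/-- OPT: positions indexed by `Option (Fin n)`. (Reindex by an equivalence with `Fin (n + 1)`.) -/
def OPT_stmt : Prop := ∀ (K : Type) [Field K] (V : ℤ → ℤ → ℤ → K) (n : ℕ)
  (x y z : Option (Fin n) → ℤ), Full3 (fun i j k => V (x i) (y j) (z k)) → Good3 V (n + 1)

/-! ## 4. Strict words -/

/-- MRG: merging. Let `M` be `strictM V (l + 1)`, vanishing on `U × V × W` with sum of dimensions `> 2 (l + 1)`, and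
`strictM V l` full. Then `U`, `V`, `W` contain all vectors with sum zero. It is enough that
`e_m - e_(m+1) ∈ U`. Delete `y_m` and `z_m` (they are the only letters between `x_m` and `x_(m+1)`): let
`V₁ = {v ∈ V : v_m = 0}`, `W₁ = {w ∈ W : w_m = 0}` in `K^l` and `U₁ = π(U)`, `π : K^(l+1) → K^l` adds the coordinates `m`, `m + 1`.
As `x_m`, `x_(m+1)` have the same order relations with the remaining letters (`OT3`), `strictM V l` vanishes on
`U₁ × V₁ × W₁`. So the sum of their dimensions is at most `2 l`. `dim V₁ ≥ dim V - 1`, `dim W₁ ≥ dim W - 1`, and if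
`e_m - e_(m+1) ∉ U` then `dim U₁ = dim U`: contradiction. For `V`: delete `z_m`, `x_(m+1)`; for `W`: delete `x_(m+1)`, `y_(m+1)`.
In each case the remaining letters form, after merging, the word `(xyz)^l`. -/
def MRG_stmt : Prop := ∀ (K : Type) [Field K] (V : ℤ → ℤ → ℤ → K), OT3 V → ∀ l : ℕ,
  Full3 (strictM V l) → ∀ U₁ U₂ U₃ : Submodule K (Fin (l + 1) → K),
  2 * (l + 1) < Module.finrank K U₁ + Module.finrank K U₂ + Module.finrank K U₃ →
  (∀ u ∈ U₁, ∀ v ∈ U₂, ∀ w ∈ U₃, ev3 (strictM V (l + 1)) u v w = 0) →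
  ∀ u : Fin (l + 1) → K, ∑ i, u i = 0 → u ∈ U₁ ∧ u ∈ U₂ ∧ u ∈ U₃

/-- S1: `V(xyz) ≠ 0` and `R_xz = V(yxz) + V(zxy) - V(xzy) - V(yzx) ≠ 0`: the words `(xyz)^l` are full. Induction on `l`: `l = 1`
is `V(xyz) ≠ 0`; `l ≥ 2`: MRG, the vectors `u = v = w = e_0 - e_1` are in the subspaces, and the value is `R_xz`. Uses MRG. -/
def S1_stmt : Prop := ∀ (K : Type) [Field K] (V : ℤ → ℤ → ℤ → K), OT3 V → V 0 1 2 ≠ 0 →
  V 1 0 2 + V 1 2 0 - V 0 2 1 - V 2 0 1 ≠ 0 → ∀ l : ℕ, 1 ≤ l → Good3 V l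

/-- S2: `V(yxz) = V(yzx) = V(xzy) = V(zxy) = 0`, `V(xyz) ≠ 0`, `V(xyz) + V(zyx) ≠ 0`: the words `(xyz)^l` are full. `l = 1`
clear. `l = 2`: MRG; two of the subspaces have dimension 2 (the sum is at least 5), the third contains
`e_0 - e_1`; the slices `M(e_0 - e_1, ·, ·)`, ... are not zero: `M_(0,0,0) - M_(1,0,0) = V(xyz) - V(yzx)`,
`M_(1,0,1) - M_(1,1,1) = V(yxz) - V(xyz)`, `M_(0,1,0) - M_(0,1,1) = V(xzy) - V(xyz)`. `l ≥ 3`: MRG,
`u = e_1 - e_2`, `v = w = e_0 - e_1` give `V(xyz) + V(zyx)`. Uses MRG. (In `V x y z` the arguments are the positions: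
`V(yxz) = V 1 0 2`, `V(yzx) = V 2 0 1`, `V(xzy) = V 0 2 1`, `V(zxy) = V 1 2 0`, `V(zyx) = V 2 1 0`.) -/
def S2_stmt : Prop := ∀ (K : Type) [Field K] (V : ℤ → ℤ → ℤ → K), OT3 V → V 0 1 2 ≠ 0 →
  V 0 1 2 + V 2 1 0 ≠ 0 → V 1 0 2 = 0 → V 2 0 1 = 0 → V 0 2 1 = 0 → V 1 2 0 = 0 →
  ∀ l : ℕ, 1 ≤ l → Good3 V l

/-- STR: if the values at three different positions are not of the form `a + b + c`, then there are full minors.
Let `R_xy = V(xyz) - V(yxz) - V(zxy) + V(zyx)`, `R_xz = V(yxz) - V(yzx) - V(xzy) + V(zxy)`,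
`R_yz = V(xyz) - V(xzy) - V(yzx) + V(zyx)`; `R_xy + R_xz = R_yz`. If all are zero then the values have this form. If
`V(σ) ≠ 0` and `R_(first, last of σ) ≠ 0` for some order `σ`, use S1 after a permutation of the letters (SYM). Otherwise
exactly one `R` is zero (at least two are nonzero; if all are nonzero then all six values vanish, so all `R`
vanish), say `R_xz` after a permutation, the four values with `{first, last} ≠ {x, z}` vanish,
`R_xy = V(xyz) + V(zyx) ≠ 0`, and after reversal (SYM) `V(xyz) ≠ 0`: S2. Uses S1, S2, SYM. -/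
def STR_stmt : Prop := ∀ (K : Type) [Field K] (V : ℤ → ℤ → ℤ → K), OT3 V →
  (¬ ∃ a b c : Ordering → K, ∀ x y z : ℤ, x ≠ y → y ≠ z → x ≠ z →
    V x y z = a (cmp x y) + b (cmp y z) + c (cmp x z)) → ∀ l : ℕ, 1 ≤ l → Good3 V l

/-! ## 5. Words `τ (xy) z (xy) z ...` -/

/-- KT: the table of the word: with `s₀ = V x₀ y₀ z₀`, `x₀, y₀ < z₀ < 10`. For `r_k = e_k - e_(k-1)` one has
`ev3 M u v r_k = κ u_k v_k + β (∑ u) v_k + γ u_k (∑ v)`; the other entries are sums of at most 4 values. -/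
def KT_stmt : Prop := ∀ (K : Type) [Field K] (V : ℤ → ℤ → ℤ → K) (a b c : Ordering → K) (κ : K),
  KForm V a b c κ → ∀ (n : ℕ) (x₀ y₀ z₀ : ℤ), x₀ < z₀ → y₀ < z₀ → z₀ < 10 →
  ∀ t : Option (Fin n) → Option (Fin n) → Option (Fin n) → K,
  (∀ i j k, t i j k = ev3 (fun i j k => V (kposXY x₀ i) (kposXY y₀ j) (kposZ z₀ k))
    (bas i) (bas j) (basZ k)) →
  t none none none = V x₀ y₀ z₀ ∧
  (∀ i, t (some i) none none = a .gt + b .lt + c .gt - V x₀ y₀ z₀) ∧
  (∀ j, t none (some j) none = a .lt + b .gt + c .lt - V x₀ y₀ z₀) ∧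
  (∀ k, t none none (some k) = 0) ∧
  (∀ i j, t (some i) (some j) none = a (cmp i j) - a .gt - a .lt - b .lt - c .lt + V x₀ y₀ z₀) ∧
  (∀ i k, t (some i) none (some k) = if i = k then c .lt - c .gt else 0) ∧
  (∀ j k, t none (some j) (some k) = if j = k then b .lt - b .gt else 0) ∧
  (∀ i j k, t (some i) (some j) (some k) = if i = j ∧ j = k then κ else 0)

/-- KA: `β γ ≠ 0` or `β = γ = 0`, `V x₀ y₀ z₀ ≠ 0` for some `x₀, y₀ < z₀`: full. (`OT3`: take `x₀, y₀, z₀ ∈ {0, 1, 2}`.) EXT and KT: E3 for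
`s j = 0`: `β + κ a_j = 0`; E2 for `s i = 1`: `γ + κ b_i = 0`; E6: `γ a_k = 0` if `s k = 0`, `β b_k = 0` if `s k = 1`. If
`β γ ≠ 0` this gives `s k = 2` for all `k`, if `β = γ = 0` it gives `a = b = 0`: in both cases `a = b = 0` and E7 is
`V x₀ y₀ z₀ = 0`. Uses CHB, LI, EXT, OPT, KT. -/
def KA_stmt : Prop := ∀ (K : Type) [Field K] (V : ℤ → ℤ → ℤ → K) (a b c : Ordering → K) (κ : K),
  OT3 V → KForm V a b c κ → κ ≠ 0 →
  ((b .lt ≠ b .gt ∧ c .lt ≠ c .gt) ∨ (b .lt = b .gt ∧ c .lt = c .gt)) →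
  (∃ x₀ y₀ z₀ : ℤ, x₀ < z₀ ∧ y₀ < z₀ ∧ V x₀ y₀ z₀ ≠ 0) → ∀ n : ℕ, Good3 V (n + 1)

/-- KB1: `γ = 0`, `V(yxz) ≠ 0`: full (word `y x z (xy) z ...`: `x₀ = 1, y₀ = 0, z₀ = 2`). EXT: `b = 0` (E2), then E7 is
`s₀ + ∑ a_i (a> + b< + c> - s₀) = s₀ = 0` as `s₀ = a> + b< + c<` and `c< = c>`. Uses CHB, LI, EXT, OPT, KT. -/
def KB1_stmt : Prop := ∀ (K : Type) [Field K] (V : ℤ → ℤ → ℤ → K) (a b c : Ordering → K) (κ : K),
  OT3 V → KForm V a b c κ → κ ≠ 0 → c .lt = c .gt → V 1 0 2 ≠ 0 → ∀ n : ℕ, Good3 V (n + 1)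

/-- KB2: `γ = 0 ≠ β`, `V(yxz) = V(zxy) = 0`, `n ≥ 2`: full (word `x y z (xy) z ...`: `x₀ = 0, y₀ = 1, z₀ = 2`).
`α = β` (difference of the two values), `s₀ = α`, `t(i,0,0) = -α`, `t(0,j,0) = -α`, `t(i,j,0) = a(cmp i j) - a>`,
`t(i,0,k) = 0`. EXT: `b = 0`, `a_i = -β/κ` if `s i = 0`. E4 for `s i ≠ 0`: `-α = 0`, so `s = 0` everywhere. E5 for all `j`:
`-α - (β/κ) (j α + a= - a>) = 0`; subtract `j = 0` from `j = 1`: `β α = 0`, contradiction. Uses CHB, LI, EXT, OPT, KT. -/
def KB2_stmt : Prop := ∀ (K : Type) [Field K] (V : ℤ → ℤ → ℤ → K) (a b c : Ordering → K) (κ : K),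
  OT3 V → KForm V a b c κ → κ ≠ 0 → c .lt = c .gt → b .lt ≠ b .gt → V 1 0 2 = 0 → V 1 2 0 = 0 →
  ∀ n : ℕ, 2 ≤ n → Good3 V (n + 1)

/-- KALL: form K with `κ ≠ 0` has full minors for `l ≥ 3`. The reversed function `V(-x,-y,-z)` is of form K with `-κ`
(`a'(lt) = a(gt)`, `a'(eq) = a(eq) + κ`, ...), and `V y x z` is of form K with `b`, `c` exchanged. If
`β γ ≠ 0` or `β = γ = 0`: KA, or KA for the reversed function; if all values with `z` last and all values with `z` first
vanish then `V(xyz) - V(yxz) = α = 0`, `V(xyz) - V(zxy) = β + γ = 0`, `V(x=y<z) - V(z<x=y) = κ + β + γ = 0`: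
contradiction. If `γ = 0 ≠ β`: KB1, or KB1 for the reversed function (`V(zxy) ≠ 0`), or KB2. If `β = 0 ≠ γ`:
exchange `x` and `y`. Uses KA, KB1, KB2, SYM. -/
def KALL_stmt : Prop := ∀ (K : Type) [Field K] (V : ℤ → ℤ → ℤ → K) (a b c : Ordering → K) (κ : K),
  OT3 V → KForm V a b c κ → κ ≠ 0 → ∀ l : ℕ, 3 ≤ l → Good3 V l

/-! ## 6. Words `x y z P P ... P`, `P` a triple point -/

/-- BT: the table of the word. -/
def BT_stmt : Prop := ∀ (K : Type) [Field K] (V : ℤ → ℤ → ℤ → K) (a b c : Ordering → K) (δ : K),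
  BForm V a b c δ → ∀ (n : ℕ) (t : Option (Fin n) → Option (Fin n) → Option (Fin n) → K),
  (∀ i j k, t i j k = ev3 (fun i j k => V (bpos 0 i) (bpos 1 j) (bpos 2 k))
    (bas i) (bas j) (bas k)) →
  t none none none = a .lt + b .lt + c .lt ∧
  (∀ i, t (some i) none none = a .gt - a .lt + c .gt - c .lt) ∧
  (∀ j, t none (some j) none = b .gt - b .lt) ∧
  (∀ k, t none none (some k) = 0) ∧
  (∀ i j, t (some i) (some j) none = a (cmp i j) - a .gt) ∧
  (∀ i k, t (some i) none (some k) = c (cmp i k) - c .gt) ∧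
  (∀ j k, t none (some j) (some k) = b (cmp j k) - b .gt) ∧
  (∀ i j k, t (some i) (some j) (some k) = if i = j ∧ j = k then δ else 0)

/-- BX: consequence of BT, EXT, CHB, LI, OPT: if `V` is of form B with `δ ≠ 0` and has no full minor with
sides `n + 1`, then there is `Viol` for the table. -/
def BX_stmt : Prop := ∀ (K : Type) [Field K] (V : ℤ → ℤ → ℤ → K) (a b c : Ordering → K) (δ : K),
  BForm V a b c δ → δ ≠ 0 → ∀ n : ℕ, ¬ Good3 V (n + 1) →
  ∃ (t : Option (Fin n) → Option (Fin n) → Option (Fin n) → K) (s : Fin n → Fin 3)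
    (a' b' c' : Fin n → K), Viol t δ s a' b' c' ∧
  t none none none = a .lt + b .lt + c .lt ∧
  (∀ i, t (some i) none none = a .gt - a .lt + c .gt - c .lt) ∧
  (∀ j, t none (some j) none = b .gt - b .lt) ∧
  (∀ k, t none none (some k) = 0) ∧
  (∀ i j, t (some i) (some j) none = a (cmp i j) - a .gt) ∧
  (∀ i k, t (some i) none (some k) = c (cmp i k) - c .gt) ∧
  (∀ j k, t none (some j) (some k) = b (cmp j k) - b .gt)

/-- B1: `α, β, γ ≠ 0`, `n ≥ 3`. For `i < j`: E1: `s i = 0 ∨ s j = 1`; E3: `s i = 1 ∨ s j = 2`; E2: `s i = 0 ∨ s j = 2`. So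
`s i = 0`, `s j = 2`; impossible for three indices `0 < 1 < 2`. Uses BX. -/
def B1_stmt : Prop := ∀ (K : Type) [Field K] (V : ℤ → ℤ → ℤ → K) (a b c : Ordering → K) (δ : K),
  BForm V a b c δ → δ ≠ 0 → a .lt ≠ a .gt → b .lt ≠ b .gt → c .lt ≠ c .gt →
  ∀ n : ℕ, 3 ≤ n → Good3 V (n + 1)

/-- B1S: `α, β, γ ≠ 0`, `V(xyz) ≠ 0`: the words `(xyz)^l`, `l ≤ 3`, are full. `l = 1` clear. `l = 2`: MRG; two of the
subspaces are everything, the third contains `e_0 - e_1`; the slices `M(e_0 - e_1, ·, ·)` etc. are not zero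
(otherwise e.g. `α = γ = 0`: on the first slice `M_(0,0,k) - M_(1,0,k)` is `α + γ` for `k = 0` and `α` for `k = 1`;
`y`: `M_(i,0,k) - M_(i,1,k)`: `M_(0,0,0) - M_(0,1,0) = β`; `z`: `M_(0,1,0) - M_(0,1,1) = -β`). `l = 3`: the sum of the dimensions is
at least 7, so one subspace is everything and the others contain the sum zero vectors:
`ev3 M (e_0 - e_1) (e_0 - e_1) w = ± α` for `w = e_2`: choose the test vectors `e_0 - e_1` and a coordinate vector. Uses MRG. -/
def B1S_stmt : Prop := ∀ (K : Type) [Field K] (V : ℤ → ℤ → ℤ → K) (a b c : Ordering → K) (δ : K),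
  OT3 V → BForm V a b c δ → a .lt ≠ a .gt → b .lt ≠ b .gt → c .lt ≠ c .gt → V 0 1 2 ≠ 0 → Good3 V 3

/-- B2: `α, β ≠ 0`, `γ = 0`, `n ≥ 2`. Put `ā = a= - a>`, `b̄ = b= - b>`, `c̄ = c= - c>`. For `i < j`: (`s i = 0 ∨ s j = 1`) and
(`s i = 1 ∨ s j = 2`): so `(s i, s j) = (0, 2)` or `(1, 1)`. (i) `s 0 = 0`, `s 1 = 2` (`n = 2`, as `s 1 = 2` is not possible before a
third index): E4 for `i = 1`: `-α + c̄ c_1 = 0`, so `c̄ ≠ 0`; E6 for `k = 0`: `c̄ a_0 = 0`, so `a_0 = 0`; E3 for `j = k = 0`: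
`b̄ + δ a_0 = 0`, so `b̄ = 0`; E5 for `j = 1`: `-β + a_0 α + c_1 b̄ = 0`: contradiction. (ii) `s = 1` everywhere: `a = c = 0`,
`b_i = v = -c̄/δ` (E2 with `i = k`), E4 for `i = n - 2` and `n - 1`: `-α + v (ā + α) = 0`, `-α + v ā = 0`: `v α = 0`, `v = 0`, `α = 0`.
Uses BX. -/
def B2_stmt : Prop := ∀ (K : Type) [Field K] (V : ℤ → ℤ → ℤ → K) (a b c : Ordering → K) (δ : K),
  BForm V a b c δ → δ ≠ 0 → a .lt ≠ a .gt → b .lt ≠ b .gt → c .lt = c .gt →
  ∀ n : ℕ, 2 ≤ n → Good3 V (n + 1)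

/-- B3: `α ≠ 0`, `β = γ = 0`, `V(xyz) = a< + b< + c< ≠ 0`, `n ≥ 2`. `t(0,j,k) = b̄ [j = k]`, `t(i,0,k) = c̄ [i = k]`,
`t(i,0,0) = -α`, `t(0,j,0) = 0`. If `a' = 0` then E7 is `a< + b< + c< + ∑∑ b'_j c'_k b̄ [j = k] = a< + b< + c< = 0` (disjoint
supports): contradiction. So there is `i₀` with `s i₀ = 0`, `a'_(i₀) ≠ 0`, and E3 gives `b̄ ≠ 0`, `a'_i = -b̄/δ` for all `i` with `s i = 0`. E6 at
`i₀`: `c̄ a'_(i₀) = 0`, `c̄ = 0`, so `b' = 0` (E2). E4 for `s i ≠ 0`: `-α = 0`. So `s = 0` everywhere, and E5 for `j = 0, 1`: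
`-(b̄/δ) (j α + a= - a>) = 0`: `α = 0`, contradiction. Uses BX. -/
def B3_stmt : Prop := ∀ (K : Type) [Field K] (V : ℤ → ℤ → ℤ → K) (a b c : Ordering → K) (δ : K),
  BForm V a b c δ → δ ≠ 0 → a .lt ≠ a .gt → b .lt = b .gt → c .lt = c .gt →
  a .lt + b .lt + c .lt ≠ 0 → ∀ n : ℕ, 2 ≤ n → Good3 V (n + 1)

/-- U1: `α = β = γ = 0`, `a< + b< + c< ≠ 0`: `t(i,0,0) = t(0,j,0) = t(0,0,k) = 0`, `t(i,j,0) = ā [i = j]` etc. E7: `a< + b< + c< = 0`
(disjoint supports). Uses BX. -/
def U1_stmt : Prop := ∀ (K : Type) [Field K] (V : ℤ → ℤ → ℤ → K) (a b c : Ordering → K) (δ : K),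
  BForm V a b c δ → δ ≠ 0 → a .lt = a .gt → b .lt = b .gt → c .lt = c .gt →
  a .lt + b .lt + c .lt ≠ 0 → ∀ n : ℕ, Good3 V (n + 1)

/-- U2: `α = β = γ = 0`, `ā b̄ c̄ ≠ 0`, `n ≥ 1`. Index 0: if `s 0 = 0`: `a_0 = -b̄/δ` (E3), E5: `a_0 ā + c_0 b̄ = a_0 ā = 0`; if
`s 0 = 1`: `b_0 = -c̄/δ` (E2), E4: `b_0 ā = 0`; if `s 0 = 2`: `c_0 = -ā/δ` (E1), E4: `c_0 c̄ = 0`. Uses BX. -/
def U2_stmt : Prop := ∀ (K : Type) [Field K] (V : ℤ → ℤ → ℤ → K) (a b c : Ordering → K) (δ : K),
  BForm V a b c δ → δ ≠ 0 → a .lt = a .gt → b .lt = b .gt → c .lt = c .gt →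
  a .eq ≠ a .gt → b .eq ≠ b .gt → c .eq ≠ c .gt → ∀ n : ℕ, 1 ≤ n → Good3 V (n + 1)

/-- U3: `V x y z = A [x = y] + B [y = z] + δ [x = y = z]` with `A, δ ≠ 0`. Word `P^n (xy) z`: positions `x_i = y_i = z_i = i` for
`i : Fin n`, `x_none = y_none = n`, `z_none = n + 1`. Bases `bas`, `bas1`, `bas`. Table: `t(0,0,0) = A`, `t(i,0,0) = -A`,
`t(0,j,0) = t(0,0,k) = t(i,0,k) = 0`, `t(i,j,0) = A [i = j]`, `t(0,j,k) = B [j = k]`, `t(i,j,k) = δ [i = j = k]`. EXT: E2 for
`s i = 1`: `b_i = 0`; E4 for `s i ≠ 0`: `-A = 0`, so `s = 0` everywhere; E5: `A a_j = 0`; E7: `A = 0`. Uses CHB, LI, EXT, OPT. -/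
def U3_stmt : Prop := ∀ (K : Type) [Field K] (V : ℤ → ℤ → ℤ → K) (A B δ : K), A ≠ 0 → δ ≠ 0 →
  (∀ x y z, V x y z = (if x = y then A else 0) + (if y = z then B else 0) +
    (if x = y ∧ y = z then δ else 0)) → ∀ n : ℕ, Good3 V (n + 1)

/-- U4: `V x y z = δ [x = y = z]`: the diagonal tensor is full (TGT). Uses TGT. -/
def U4_stmt : Prop := ∀ (K : Type) [Field K] (V : ℤ → ℤ → ℤ → K) (δ : K), δ ≠ 0 →
  (∀ x y z, V x y z = if x = y ∧ y = z then δ else 0) → ∀ n : ℕ, Good3 V n

/-- BALL: form B with `δ ≠ 0` has full minors for `l ≥ 3`. Form B is kept by permutations of the letters and by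
reversal. Number of nonzero ones among `α, β, γ`: 3: B1 if `l ≥ 4`; `l = 3`: some order has a nonzero value
(`V(xyz) - V(xzy) = β`), permute the letters and B1S. 2: permute such that `γ = 0`, B2. 1: permute such that `α ≠ 0`;
`V(xyz)` or `V(yxz)` is nonzero; B3 for `V` or for `V y x z`. 0: `s = a< + b< + c<`: `s ≠ 0`: U1; `s = 0` and
`ā, b̄, c̄ ≠ 0`: U2; `s = 0`, all zero: U4; `s = 0`, one of them zero and another one nonzero: permute such that
`c̄ = 0 ≠ ā`: U3 (with `A = ā`, `B = b̄`: `V x y z = s + ā [x = y] + b̄ [y = z] + c̄ [x = z] + δ [x = y = z]`).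
Uses B1, B1S, B2, B3, U1, U2, U3, U4, SYM. -/
def BALL_stmt : Prop := ∀ (K : Type) [Field K] (V : ℤ → ℤ → ℤ → K) (a b c : Ordering → K) (δ : K),
  OT3 V → BForm V a b c δ → δ ≠ 0 → ∀ l : ℕ, 3 ≤ l → Good3 V l

/-! ## 7. Assembly of order 3 -/

/-- CASE: every function of the order type of three integers which is not `Low3` has full minors for all
`l ≥ 3`. If the values at different positions are not of the form `a + b + c`: STR. Otherwise choose
`a=`, `b=`, `c=` with `V(z < x = y) = a= + b> + c>`, `V(y = z < x) = a> + b= + c>`, `V(x = z < y) = a< + b> + c=`, and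
`κ_z = V(x = y < z) - (a= + b< + c<)`. If `κ_z ≠ 0`: form K, KALL. Similarly for the ties `y = z` and `x = z`
after a permutation of the letters. If all three `κ` are zero: form B with `δ = V(x = y = z) - (a= + b= + c=)`,
`δ ≠ 0` since `V` is not `Low3`: BALL. Uses STR, KALL, BALL, SYM. -/
def CASE_stmt : Prop := ∀ (K : Type) [Field K] (V : ℤ → ℤ → ℤ → K), OT3 V → ¬ Low3 V →
  ∀ l : ℕ, 3 ≤ l → Good3 V l

/-- SL3: slice rank, order 3. `l = 0` trivial, `l = 1`: `T ≠ 0`; `l = 2`: `Pool.Agent.Results.MP_b48e27_co.SizeTwoMinors.result`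
(`Pool/Agent/Results/MP_b48e27_co/SizeTwoMinors.lean`; `(slices 3).ncard ≤ 2^9`, any bound will do, the family is finite); `l ≥ 3`: `T = val ∘ T'`
with `T'` with values in `Fin m` (`Set.range T` has at most `m` elements; `m ≥ 1` if `T ≠ 0`), P1 for `d = 3`, `N = 3 l`,
CNV, CASE, CMP, FS. Uses P1, CNV, CASE, CMP, FS. -/
def SL3_stmt : Prop := ∃ G : ℕ → ℕ → ℕ, ∀ (K : Type) [Field K] (Q : Fin 3 → Type)
  (T : ((α : Fin 3) → Q α) → K) (m l : ℕ), (Set.range T).Finite → (Set.range T).ncard ≤ m →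
  (G m l : ℕ∞) ≤ rank (slices 3) T →
  ∃ X : (α : Fin 3) → Finset (Q α), (∀ α, (X α).card ≤ l) ∧ (l : ℕ∞) ≤ rank (slices 3) (minor T X)

/-! ## 8. The other families for order 3 (all fields, all tensors) -/

/-- the partitions `{{α}, {α}ᶜ}` for `α ∈ S` -/
def slicesOf {d : ℕ} (S : Finset (Fin d)) : Set (IndexPartition d) :=
  {P | P.parts.card = 2 ∧ ∃ α ∈ S, {α} ∈ P.parts}

/-- R0: classification. A family `R` of partitions of three indices into at least two parts, not empty: either it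
contains only the partition into three parts, or its rank is that of `slicesOf S` for the set `S` of the `α` with
`{{α}, {α}ᶜ} ∈ R` (a product of three functions is a slice in every direction). -/
def R0_stmt : Prop := ∀ (R : Set (IndexPartition 3)), R.Nonempty → (∀ P ∈ R, 2 ≤ P.parts.card) →
  (∀ P ∈ R, P.parts.card = 3) ∨
  ∃ S : Finset (Fin 3), S.Nonempty ∧ ∀ (K : Type) [Field K] (Q : Fin 3 → Type)
    (T : ((α : Fin 3) → Q α) → K), rank R T = rank (slicesOf S) T

/-- R1: tensor rank (known): if `R` consists of the partition into three parts, a tensor of rank at least `l` has a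
minor with sides at most `l` and rank at least `l`. For each direction `α` consider the matrix with rows indexed
by `Q α` and columns by the pairs of the other coordinates. If one of them has rank at least `l`, choose `l`
independent rows and `l` columns of the submatrix: sides at most `l`, and rank at least the rank of the matrix. Otherwise
replace each `Q α` by a set of less than `l` elements whose rows span: the rank does not change. -/
def R1_stmt : Prop := ∀ (R : Set (IndexPartition 3)), R.Nonempty → (∀ P ∈ R, P.parts.card = 3) →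
  ∀ (K : Type) [Field K] (Q : Fin 3 → Type) [∀ α, Finite (Q α)] (T : ((α : Fin 3) → Q α) → K)
  (l : ℕ), (l : ℕ∞) ≤ rank R T →
  ∃ X : (α : Fin 3) → Finset (Q α), (∀ α, (X α).card ≤ l) ∧ (l : ℕ∞) ≤ rank R (minor T X)

/-- R2: one direction: the rank is that of the matrix with rows `Q α` and columns the pairs of the other
coordinates; choose `l` rows and `l` columns of an invertible submatrix. -/
def R2_stmt : Prop := ∀ (α₀ : Fin 3) (K : Type) [Field K] (Q : Fin 3 → Type) [∀ α, Finite (Q α)]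
  (T : ((α : Fin 3) → Q α) → K) (l : ℕ), (l : ℕ∞) ≤ rank (slicesOf {α₀}) T →
  ∃ X : (α : Fin 3) → Finset (Q α), (∀ α, (X α).card ≤ l) ∧
    (l : ℕ∞) ≤ rank (slicesOf {α₀}) (minor T X)

/-- the matrix of linear forms `∑_z T(x, y, z) c_z` -/
noncomputable def pencil {K X Y Z : Type} [Field K] [Fintype Z] (T : X → Y → Z → K) :
    Matrix X Y (MvPolynomial Z K) :=
  Matrix.of fun x y => ∑ z, MvPolynomial.C (T x y z) * MvPolynomial.X z

/-- R3A: if all minors of size `l` of the pencil `A` vanish then `T` is a sum of at most `2 l^2` slices of directions `x`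
and `y`. Let `r < l` be maximal with a nonzero minor `P = det A_IJ` of size `r` (`r = 0`: `P = 1`). For all `x`, `y`:
`P A_xy = ∑_{i ∈ I, j ∈ J} ± A_xj A_iy P_ij` (the bordered minor of size `r + 1` vanishes; or
`A_xy = A_xJ (A_IJ)⁻¹ A_Iy` over the field of fractions). Take a monomial order on `MvPolynomial Z K` (for
instance the lexicographic one for a linear order on `Z`), `m` the leading monomial of `P`, `p` its coefficient, `S` the
set of variables of `m` (at most `r`). Compare the coefficients of `m c_z`, for any `z`: left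
`p T(x,y,z) + ∑_{z' ∈ S, z' ≠ z} P[m c_z / c_z'] T(x,y,z')`, and `P[m c_z / c_z'] = 0` if `c_z > c_z'`, so only the `z' ∈ S`
with `c_z' > c_z` occur. Right: `R_z(x,y) = ∑_{i,j} ± ∑_{z₁,z₂} T(x,j,z₁) T(i,y,z₂) P_ij[m c_z / (c_z₁ c_z₂)]`, where
`z₁ ∈ S` or `z₂ ∈ S`: so `R_z(x,y) = ∑_{j, z₁ ∈ S} T(x,j,z₁) B(j,z₁,y,z) + ∑_{i, z₂ ∈ S} T(i,y,z₂) B'(i,z₂,x,z)`. Solve for
`T(x,y,z)`, `z ∈ S` from the largest to the smallest, then for the other `z`: `T(x,y,z) = ∑_{z''} g(z,z'') R_z''(x,y)`, which has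
the same form: at most `2 r^2` slices `T(x,j,z₁) b(y,z)` and `T(i,y,z₂) b(x,z)`. -/
def R3A_stmt : Prop := ∀ (K X Y Z : Type) [Field K] [Finite X] [Finite Y] [Fintype Z]
  (T : X → Y → Z → K) (l : ℕ),
  (∀ (i : Fin l → X) (j : Fin l → Y), ((pencil T).submatrix i j).det = 0) →
  ∃ (N₁ N₂ : ℕ) (a : Fin N₁ → X → K) (b : Fin N₁ → Y → Z → K) (a' : Fin N₂ → Y → K)
    (b' : Fin N₂ → X → Z → K), N₁ + N₂ ≤ 2 * l ^ 2 ∧
    ∀ x y z, T x y z = ∑ n, a n x * b n y z + ∑ n, a' n y * b' n x z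

/-- R3B: if a minor of size `l` of the pencil does not vanish then there is a set `Z'` of at most `l` elements of `Z`
such that `T` on `range i × range j × Z'` is not a sum of less than `l` slices of directions `x` and `y`: `Z'` the set of
variables of a monomial of the determinant `P`; set the other variables to zero, the determinant remains
nonzero; a slice `a(x) b(y,z)` gives a matrix of rank at most 1 over the field of fractions. -/
def R3B_stmt : Prop := ∀ (K X Y Z : Type) [Field K] [Fintype Z]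
  (T : X → Y → Z → K) (l : ℕ) (i : Fin l → X) (j : Fin l → Y),
  ((pencil T).submatrix i j).det ≠ 0 →
  ∃ Z' : Finset Z, Z'.card ≤ l ∧ ∀ (N₁ N₂ : ℕ) (a : Fin N₁ → X → K) (b : Fin N₁ → Y → Z → K)
    (a' : Fin N₂ → Y → K) (b' : Fin N₂ → X → Z → K),
    (∀ s t, ∀ z ∈ Z', T (i s) (j t) z =
      ∑ n, a n (i s) * b n (j t) z + ∑ n, a' n (j t) * b' n (i s) z) → l ≤ N₁ + N₂

/-- R3: two directions. Let `α₂` be the third direction; `x`, `y`, `z` the coordinates `α₀`, `α₁`, `α₂`. Uses R3A, R3B. -/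
def R3_stmt : Prop := ∀ (α₀ α₁ : Fin 3), α₀ ≠ α₁ → ∀ (K : Type) [Field K] (Q : Fin 3 → Type)
  [∀ α, Finite (Q α)] (T : ((α : Fin 3) → Q α) → K) (l : ℕ),
  ((2 * l ^ 2 + 1 : ℕ) : ℕ∞) ≤ rank (slicesOf {α₀, α₁}) T →
  ∃ X : (α : Fin 3) → Finset (Q α), (∀ α, (X α).card ≤ l) ∧
    (l : ℕ∞) ≤ rank (slicesOf {α₀, α₁}) (minor T X)

/-- ALL3: the final theorem for order 3. If `R` contains the partition into one part then the rank is at most one
(`G ≥ 2`). Otherwise R0 and R1, R2, R3, SL3 (`slicesOf univ = slices 3`; the subsets `S` of `Fin 3` with two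
elements are `{α₀, α₁}`); take for `G m l` the maximum of the bounds. `l = 0` is trivial. Uses R0, R1, R2, R3, SL3. -/
def ALL3_stmt : Prop := ∃ G : ℕ → ℕ → ℕ, ∀ (R : Set (IndexPartition 3)), R.Nonempty →
  ∀ (K : Type) [Field K] (Q : Fin 3 → Type) [∀ α, Finite (Q α)] (T : ((α : Fin 3) → Q α) → K)
  (m l : ℕ), (Set.range T).ncard ≤ m → (G m l : ℕ∞) ≤ rank R T →
  ∃ X : (α : Fin 3) → Finset (Q α), (∀ α, (X α).card ≤ l) ∧ (l : ℕ∞) ≤ rank R (minor T X)

end Pool.Agent.helper35.MR
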