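import Pool.Agent.helper35.MR.SpecA

/-!
# Project mr: definitions for order 4 (helper35)

Four types `X Y Z W` for the four directions.
-/

set_option autoImplicit false

open Finset

namespace Pool.Agent.helper35.MR

open Pool.Agent.RRank

section order4

variable {X Y Z W K : Type} [Field K]

/-- value of a linear form -/
def ev1 [Fintype X] (a u : X → K) : K := ∑ x, a x * u x

/-- value of a bilinear form -/
def ev2 [Fintype X] [Fintype Y] (A : X → Y → K) (u : X → K) (v : Y → K) : K :=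
  ∑ x, ∑ y, A x y * (u x * v y)

/-- value of a tensor of order 4 on vectors -/
def ev4 [Fintype X] [Fintype Y] [Fintype Z] [Fintype W] (T : X → Y → Z → W → K)
    (u : X → K) (v : Y → K) (w : Z → K) (q : W → K) : K :=
  ∑ x, ∑ y, ∑ z, ∑ t, T x y z t * (u x * v y * w z * q t)

/-- the signed sum `∑ sgn(σ τ ρ) ∏ T(x_i, y_σi, z_τi, w_ρi)` -/
def hyp (s : ℕ) (T : X → Y → Z → W → K) (x : Fin s → X) (y : Fin s → Y) (z : Fin s → Z)
    (w : Fin s → W) : K :=
  ∑ σ : Equiv.Perm (Fin s), ∑ τ : Equiv.Perm (Fin s), ∑ ρ : Equiv.Perm (Fin s),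
    (((Equiv.Perm.sign σ * Equiv.Perm.sign τ * Equiv.Perm.sign ρ : ℤˣ) : ℤ) : K) *
      ∏ i, T (x i) (y (σ i)) (z (τ i)) (w (ρ i))

/-- one slice -/
def IsSl (t : X → Y → Z → W → K) : Prop :=
  (∃ (a : X → K) (a' : Y → Z → W → K), ∀ x y z w, t x y z w = a x * a' y z w) ∨
  (∃ (b : Y → K) (b' : X → Z → W → K), ∀ x y z w, t x y z w = b y * b' x z w) ∨
  (∃ (c : Z → K) (c' : X → Y → W → K), ∀ x y z w, t x y z w = c z * c' x y w) ∨
  (∃ (d : W → K) (d' : X → Y → Z → K), ∀ x y z w, t x y z w = d w * d' x y z)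

/-- the sum of `r` slices in each of the four directions with given factors -/
def slSum {r : ℕ} (a : Fin r → X → K) (a' : Fin r → Y → Z → W → K) (b : Fin r → Y → K)
    (b' : Fin r → X → Z → W → K) (c : Fin r → Z → K) (c' : Fin r → X → Y → W → K)
    (d : Fin r → W → K) (d' : Fin r → X → Y → Z → K) (x : X) (y : Y) (z : Z) (w : W) : K :=
  ∑ n, a n x * a' n y z w + ∑ n, b n y * b' n x z w + ∑ n, c n z * c' n x y w +
    ∑ n, d n w * d' n x y z

/-- sums of `r` slices in each direction -/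
def Sl (r : ℕ) (S : X → Y → Z → W → K) : Prop :=
  ∃ (a : Fin r → X → K) (a' : Fin r → Y → Z → W → K) (b : Fin r → Y → K)
    (b' : Fin r → X → Z → W → K) (c : Fin r → Z → K) (c' : Fin r → X → Y → W → K)
    (d : Fin r → W → K) (d' : Fin r → X → Y → Z → K),
    ∀ x y z w, S x y z w = slSum a a' b b' c c' d d' x y z w

/-- the sum `∑ t_pq A_p(x,y) B_q(z,w)` -/
def pr {a b : ℕ} (t : Fin a → Fin b → K) (A : Fin a → X → Y → K) (B : Fin b → Z → W → K)
    (x : X) (y : Y) (z : Z) (w : W) : K := ∑ p, ∑ q, t p q * (A p x y * B q z w)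

/-- matrices of rank at most `R` -/
def LR (R : ℕ) (A : X → Y → K) : Prop :=
  ∃ (f : Fin R → X → K) (g : Fin R → Y → K), ∀ x y, A x y = ∑ n, f n x * g n y

/-- every nonzero combination of the matrices has rank more than `R` -/
def Reg {a : ℕ} (R : ℕ) (A : Fin a → X → Y → K) : Prop :=
  ∀ c : Fin a → K, c ≠ 0 → ¬ LR R (fun x y => ∑ p, c p * A p x y)

/-- `T` is the sum of `4 r` slices and of the products of the pairs of families of sizes `a, ..., f` -/
def Dec (r a b c d e f : ℕ) (T : X → Y → Z → W → K) : Prop :=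
  ∃ (S : X → Y → Z → W → K) (t : Fin a → Fin b → K) (u : Fin c → Fin d → K)
    (v : Fin e → Fin f → K) (A : Fin a → X → Y → K) (B : Fin b → Z → W → K)
    (C : Fin c → X → Z → K) (D : Fin d → Y → W → K) (E : Fin e → X → W → K)
    (F : Fin f → Y → Z → K), Sl r S ∧
    ∀ x y z w, T x y z w = S x y z w + pr t A B x y z w + pr u C D x z y w + pr v E F x w y z

/-- the same, with all families regular at level `R` -/
def DecReg (R r a b c d e f : ℕ) (T : X → Y → Z → W → K) : Prop :=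
  ∃ (S : X → Y → Z → W → K) (t : Fin a → Fin b → K) (u : Fin c → Fin d → K)
    (v : Fin e → Fin f → K) (A : Fin a → X → Y → K) (B : Fin b → Z → W → K)
    (C : Fin c → X → Z → K) (D : Fin d → Y → W → K) (E : Fin e → X → W → K)
    (F : Fin f → Y → Z → K), Sl r S ∧
    (∀ x y z w, T x y z w = S x y z w + pr t A B x y z w + pr u C D x z y w + pr v E F x w y z) ∧
    Reg R A ∧ Reg R B ∧ Reg R C ∧ Reg R D ∧ Reg R E ∧ Reg R F

/-- at most `μ` values -/
def Few {ι : Type} (μ : ℕ) (f : ι → K) : Prop := (Set.range f).Finite ∧ (Set.range f).ncard ≤ μ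

/-- a tuple of four coordinates -/
def mk4 {Q : Fin 4 → Type} (x : Q 0) (y : Q 1) (z : Q 2) (w : Q 3) : (α : Fin 4) → Q α
  | 0 => x
  | 1 => y
  | 2 => z
  | 3 => w

/-- full tensors of order 4 -/
def Full4 {ι : Type} [Fintype ι] (M : ι → ι → ι → ι → K) : Prop :=
  ∀ U₁ U₂ U₃ U₄ : Submodule K (ι → K),
    3 * Fintype.card ι < Module.finrank K U₁ + Module.finrank K U₂ + Module.finrank K U₃ +
      Module.finrank K U₄ →
    ∃ u₁ ∈ U₁, ∃ u₂ ∈ U₂, ∃ u₃ ∈ U₃, ∃ u₄ ∈ U₄, ev4 M u₁ u₂ u₃ u₄ ≠ 0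

end order4

/-- sums `a r + b s` -/
def Add2 {K : Type} [Field K] (F : Ordering → Ordering → K) : Prop :=
  ∃ a b : Ordering → K, ∀ r s, F r s = a r + b s

/-- there are positions such that the tensor `F (cmp x y) (cmp z w)` is full -/
def GoodF {K : Type} [Field K] (F : Ordering → Ordering → K) (l : ℕ) : Prop :=
  ∃ x y z w : Fin l → Fin (2 * l),
    Full4 (fun i j k m : Fin l => F (cmp (x i) (y j)) (cmp (z k) (w m)))

/-- `V` is `F(cmp x₀ x₁, cmp x₂ x₃) + G(cmp x₀ x₂, cmp x₁ x₃) + H(cmp x₀ x₃, cmp x₁ x₂)` up to `Low` -/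
def Form4 {K : Type} [Field K] (V : (Fin 4 → ℤ) → K) (F G H : Ordering → Ordering → K) : Prop :=
  Low (fun x => V x - F (cmp (x 0) (x 1)) (cmp (x 2) (x 3)) - G (cmp (x 0) (x 2)) (cmp (x 1) (x 3)) -
    H (cmp (x 0) (x 3)) (cmp (x 1) (x 2)))

/-- dependence on the coordinates in `I` only -/
def Dp {C : Type} (I : Finset (Fin 4)) (ψ : (Fin 4 → ℤ) → C) : Prop :=
  ∀ x y : Fin 4 → ℤ, (∀ α ∈ I, x α = y α) → ψ x = ψ y

/-! ## Positions for the words -/

/-- positions `2 i` -/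
def pA {l : ℕ} (i : Fin l) : Fin (2 * l) := ⟨2 * i.1, by omega⟩

/-- positions `2 i + 1` -/
def pB {l : ℕ} (i : Fin l) : Fin (2 * l) := ⟨2 * i.1 + 1, by omega⟩

/-- positions `i` -/
def pC {l : ℕ} (i : Fin l) : Fin (2 * l) := ⟨i.1, by omega⟩

/-- positions `i`, but `l` for the last one -/
def pD {l : ℕ} (i : Fin l) : Fin (2 * l) :=
  ⟨if i.1 + 1 = l then l else i.1, by split_ifs <;> omega⟩

end Pool.Agent.helper35.MR
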