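import Pool.Agent.helper35.MR.DefsB

/-!
# Project mr: specification, part B (slice rank, order 4) (helper35)

Two final theorems on Q1 of MP_b48e27_co for the slice rank of tensors of order 4:
* `SB4_stmt`: `G` depends only on `l`, for all fields in which `l! ≠ 0` (characteristic 0 or larger than `l`);
* `SA4_stmt`: all fields, tensors with at most `m` values (`G` depends on `m`, `l`), in particular all finite fields.

Every `XX_stmt : Prop` is a module `mr:XX`. File `Pool/Agent/<you>/MR/XX.lean`,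
`import Pool.Agent.helper35.MR.SpecB`, namespace `Pool.Agent.helper35.MR`, `open Finset Pool.Agent.RRank`,
`theorem XX (h : YY_stmt) ... : XX_stmt`; any other statement of this file or of `SpecA` may be a hypothesis (not
circularly), auxiliary lemmas are prefixed `XX_`.

In the comments: `I`, `J`, `U`, `U0`, `L0` are the matrices `[i = j]`, all ones, `[i ≤ j]`, `[i < j]`, `[i > j]`;
`c12 = codim U₁ + codim U₂`, `c34 = codim U₃ + codim U₄`.
-/

set_option autoImplicit false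

open Finset

namespace Pool.Agent.helper35.MR

open Pool.Agent.RRank

/-! ## 1. The functional `hyp` -/

/-- HV0: `hyp` vanishes on sums of less than `s` slices. Expand the products: sum over `c : Fin s → Fin N` of
`hyp`-like sums of `∏ t_(c i)(i, σ i, τ i, ρ i)`; there are `i ≠ i'` with `c i = c i'` (fixed choice for each `c`). If
`t_(c i)` is a slice in direction 1, the involution `(σ, τ, ρ) ↦ (σ ∘ swap i i', τ ∘ swap i i', ρ ∘ swap i i')` does
not change the product and changes the sign; direction 2: `σ ↦ σ ∘ swap i i'` only; direction 3: `τ` only;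
direction 4: `ρ` only. The terms cancel in pairs (`Finset.sum_involution`). -/
def HV0_stmt : Prop := ∀ (K : Type) [Field K] (s N : ℕ), N < s →
  ∀ t : Fin N → Fin s → Fin s → Fin s → Fin s → K, (∀ n, IsSl (t n)) →
  hyp s (fun i j k m => ∑ n, t n i j k m) id id id id = 0

/-- SLC: slices of `Fin 4`-indexed tensors and of functions of four variables. (`P.parts = {{α}, {α}ᶜ}`.) -/
def SLC_stmt : Prop := ∀ (K : Type) [Field K] (Q : Fin 4 → Type) (T : ((α : Fin 4) → Q α) → K),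
  (∀ r, Sl r (fun x y z w => T (mk4 x y z w)) → SumOf (slices 4) T (4 * r)) ∧
  (∀ N, SumOf (slices 4) T N → ∃ t : Fin N → Q 0 → Q 1 → Q 2 → Q 3 → K, (∀ n, IsSl (t n)) ∧
    ∀ x y z w, T (mk4 x y z w) = ∑ n, t n x y z w)

/-- HLB: lower bound. If the minor were a sum of `N < s` slices then `hyp` would be zero. Uses HV0, SLC. -/
def HLB_stmt : Prop := ∀ (K : Type) [Field K] (Q : Fin 4 → Type) (T : ((α : Fin 4) → Q α) → K) (s : ℕ)
  (x : Fin s → Q 0) (y : Fin s → Q 1) (z : Fin s → Q 2) (w : Fin s → Q 3)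
  (X : (α : Fin 4) → Finset (Q α)), (∀ i, x i ∈ X 0) → (∀ i, y i ∈ X 1) → (∀ i, z i ∈ X 2) →
  (∀ i, w i ∈ X 3) → hyp s (fun a b c d => T (mk4 a b c d)) x y z w ≠ 0 →
  (s : ℕ∞) ≤ rank (slices 4) (minor T X)

/-- HML: multilinearity. `hyp l (ev4 T) ξ η ζ θ = ∑ (∏ ξ_i(x_i)) (∏ η_i(y_i)) (∏ ζ_i(z_i)) (∏ θ_i(w_i)) hyp l T x y z w`, sum over
all `x : Fin l → X`, ... (expand the product of the sums; in the term of `(σ, τ, ρ)` the second coordinates are
indexed by `i`, rename them by `y ∘ σ`). -/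
def HML_stmt : Prop := ∀ (K X Y Z W : Type) [Field K] [Fintype X] [Fintype Y] [Fintype Z] [Fintype W]
  (T : X → Y → Z → W → K) (l : ℕ), (∀ x y z w, hyp l T x y z w = 0) →
  ∀ (ξ : Fin l → X → K) (η : Fin l → Y → K) (ζ : Fin l → Z → K) (θ : Fin l → W → K),
    hyp l (ev4 T) ξ η ζ θ = 0

/-- HSY: symmetry in the last three directions (rename the permutations). -/
def HSY_stmt : Prop := ∀ (K X Y Z W : Type) [Field K] (T : X → Y → Z → W → K) (l : ℕ)
  (x : Fin l → X) (y : Fin l → Y) (z : Fin l → Z) (w : Fin l → W),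
  hyp l (fun x z y w => T x y z w) x z y w = hyp l T x y z w ∧
  hyp l (fun x w y z => T x y z w) x w y z = hyp l T x y z w

/-- EXP: expansion of `hyp (s+1) T (x₀, x) (y₀, y) (z₀, z) (w₀, w) = 0` (append one new point in each direction, index
`last`). The term of `(σ, τ, ρ)` is a product of `s + 1` values of `T`; the new points `x, y, z, w` occur each in exactly
one factor (`x` in the factor `last`, `y` in the factor `σ⁻¹ last`, ...).
* All four in the same factor: `σ, τ, ρ` fix `last`: total contribution `hyp s T x₀ y₀ z₀ w₀ * T(x,y,z,w)`.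
* `x` alone in its factor `T(x, y₀ i, z₀ j, w₀ k)`: the sum of these terms with given `(i,j,k)` is
  `T(x, y₀ i, z₀ j, w₀ k) * a'(y, z, w)`, `a'` a polynomial in the values `T(x₀ i, y*, z*, w*)`, `y*` one of `y`, `y₀ j`, ...
* otherwise, `y` alone: `T(x₀ i, y, z₀ j, w₀ k) * b'(x, z, w)`; otherwise `z` alone; otherwise `w` alone.
* otherwise the four points form two pairs: constants times `T(x, y, z₀ i, w₀ j) T(x₀ i', y₀ j', z, w)`,
  `T(x, y₀ i, z, w₀ j) T(x₀ i', y, z₀ j', w)`, `T(x, y₀ i, z₀ j, w) T(x₀ i', y, z, w₀ j')`.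
So, with `s^3` slices in each direction and families of size `s^2`, `T` has the form below after division by
`hyp s T x₀ y₀ z₀ w₀`. All factors are functions of at most `(s+1)^4` values of `T`, so they have at most `m^((s+1)^4)`
values (if `s ≥ 1` then `m ≥ 1`; if `s = 0` there are no factors). It is convenient to show first that the set of functions
of this form (with factors which depend only on the values of `T` mentioned) is closed under addition. -/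
def EXP_stmt : Prop := ∀ (K X Y Z W : Type) [Field K] (T : X → Y → Z → W → K) (s : ℕ)
  (x₀ : Fin s → X) (y₀ : Fin s → Y) (z₀ : Fin s → Z) (w₀ : Fin s → W),
  hyp s T x₀ y₀ z₀ w₀ ≠ 0 → (∀ x y z w, hyp (s + 1) T x y z w = 0) →
  ∃ (a : Fin (s ^ 3) → X → K) (a' : Fin (s ^ 3) → Y → Z → W → K) (b : Fin (s ^ 3) → Y → K)
    (b' : Fin (s ^ 3) → X → Z → W → K) (c : Fin (s ^ 3) → Z → K) (c' : Fin (s ^ 3) → X → Y → W → K)
    (d : Fin (s ^ 3) → W → K) (d' : Fin (s ^ 3) → X → Y → Z → K)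
    (t u v : Fin (s ^ 2) → Fin (s ^ 2) → K) (A : Fin (s ^ 2) → X → Y → K)
    (B : Fin (s ^ 2) → Z → W → K) (C : Fin (s ^ 2) → X → Z → K) (D : Fin (s ^ 2) → Y → W → K)
    (E : Fin (s ^ 2) → X → W → K) (F : Fin (s ^ 2) → Y → Z → K),
    (∀ x y z w, T x y z w = slSum a a' b b' c c' d d' x y z w + pr t A B x y z w +
      pr u C D x z y w + pr v E F x w y z) ∧
    ∀ m : ℕ, Few m (fun q : X × Y × Z × W => T q.1 q.2.1 q.2.2.1 q.2.2.2) →
      (∀ n, Few (m ^ ((s + 1) ^ 4)) (a n)) ∧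
      (∀ n, Few (m ^ ((s + 1) ^ 4)) (fun q : Y × Z × W => a' n q.1 q.2.1 q.2.2)) ∧
      (∀ n, Few (m ^ ((s + 1) ^ 4)) (b n)) ∧
      (∀ n, Few (m ^ ((s + 1) ^ 4)) (fun q : X × Z × W => b' n q.1 q.2.1 q.2.2)) ∧
      (∀ n, Few (m ^ ((s + 1) ^ 4)) (c n)) ∧
      (∀ n, Few (m ^ ((s + 1) ^ 4)) (fun q : X × Y × W => c' n q.1 q.2.1 q.2.2)) ∧
      (∀ n, Few (m ^ ((s + 1) ^ 4)) (d n)) ∧
      (∀ n, Few (m ^ ((s + 1) ^ 4)) (fun q : X × Y × Z => d' n q.1 q.2.1 q.2.2)) ∧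
      (∀ p, Few (m ^ ((s + 1) ^ 4)) (fun q : X × Y => A p q.1 q.2)) ∧
      (∀ p, Few (m ^ ((s + 1) ^ 4)) (fun q : Z × W => B p q.1 q.2)) ∧
      (∀ p, Few (m ^ ((s + 1) ^ 4)) (fun q : X × Z => C p q.1 q.2)) ∧
      (∀ p, Few (m ^ ((s + 1) ^ 4)) (fun q : Y × W => D p q.1 q.2)) ∧
      (∀ p, Few (m ^ ((s + 1) ^ 4)) (fun q : X × W => E p q.1 q.2)) ∧
      (∀ p, Few (m ^ ((s + 1) ^ 4)) (fun q : Y × Z => F p q.1 q.2))

/-! ## 2. Regular families (for `SB4`) -/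

/-- RED: removal of one member of a family. Choose `p₀` with `c p₀ ≠ 0`: `A_p₀` is a combination of the other `A_p` and of the
`R` products `f_n(x) g_n(y)`; `A'` is `A` without `p₀`. -/
def RED_stmt : Prop := ∀ (K X Y Z W : Type) [Field K] (a b R : ℕ) (t : Fin (a + 1) → Fin b → K)
  (A : Fin (a + 1) → X → Y → K) (B : Fin b → Z → W → K) (c : Fin (a + 1) → K), c ≠ 0 →
  LR R (fun x y => ∑ p, c p * A p x y) →
  ∃ (t' : Fin a → Fin b → K) (A' : Fin a → X → Y → K) (f : Fin R → X → K)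
    (f' : Fin R → Y → Z → W → K),
    ∀ x y z w, pr t A B x y z w = pr t' A' B x y z w + ∑ n, f n x * f' n y z w

/-- REGB: regularisation. Induction on `N`: if the six families are regular at level `ρ r₀`, stop. Otherwise RED for
this family (for `B` use `pr t A B x y z w = pr (fun q p => t p q) B A z w x y`, similarly for the others) gives
`Dec (r₀ + ρ r₀)` with one member less. (`Sl` is monotone in `r`.) Uses RED. -/
def REGB_stmt : Prop := ∀ (ρ : ℕ → ℕ) (N r₀ : ℕ), ∃ r₁ : ℕ, ∀ (K X Y Z W : Type) [Field K]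
  (T : X → Y → Z → W → K) (a b c d e f : ℕ), a + b + c + d + e + f ≤ N → Dec r₀ a b c d e f T →
  ∃ r a b c d e f : ℕ, r ≤ r₁ ∧ a + b + c + d + e + f ≤ N ∧ DecReg (ρ r) r a b c d e f T

/-- LRN: if `A` vanishes on `{ξ : f_n(ξ) = 0} × {η : h_n(η) = 0}` then `A` has rank at most `g + g'`. For `η` in the second
subspace the functional `A(·, η)` vanishes on the first one, so it is in the span `E` of the `f_n`
(`mem_span_of_iInf_ker_le_ker`); let `π` be a projection of `X → K` with kernel `E`; each coordinate of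
`η ↦ π(A(·, η))` vanishes on the second subspace, so it is a combination of the `h_n`; and `A(·, e_y) - π A(·, e_y)` is a
combination of the `f_n`. -/
def LRN_stmt : Prop := ∀ (K X Y : Type) [Field K] [Fintype X] [Fintype Y] (A : X → Y → K)
  (g g' : ℕ) (f : Fin g → X → K) (h : Fin g' → Y → K), ¬ LR (g + g') A →
  ∃ (ξ : X → K) (η : Y → K), (∀ n, ev1 (f n) ξ = 0) ∧ (∀ n, ev1 (h n) η = 0) ∧ ev2 A ξ η ≠ 0

/-- ORT: for a regular family there are vectors with prescribed values. Choose successively pairs `(ξ^n, η^n)`, `n < k`, in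
the subspaces `{f = 0}`, `{h = 0}` with `A_j(ξ^n, η^n') = 0` for `n ≠ n'` and all `j`, such that the vectors
`(A_j(ξ^n, η^n))_j` are linearly independent, until `k = a`: if they span `W ≠ K^a`, take `c ≠ 0` with
`∑ c_j w_j = 0` on `W`, and LRN for `∑ c_j A_j`, the functions `f`, `A_j(·, η^n)` (at most `g + a^2`) and `h`, `A_j(ξ^n, ·)`. At the
end `∑_n κ_n (A_j(ξ^n, η^n))_j = e_p` for some `κ`; `ξ = ∑ κ_n ξ^n`, `η = ∑ η^n`. Uses LRN. -/
def ORT_stmt : Prop := ∀ (K X Y : Type) [Field K] [Fintype X] [Fintype Y] (a g : ℕ)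
  (A : Fin a → X → Y → K), Reg (2 * g + 2 * a ^ 2) A → ∀ (f : Fin g → X → K) (h : Fin g → Y → K)
  (p : Fin a), ∃ (ξ : X → K) (η : Y → K), (∀ n, ev1 (f n) ξ = 0) ∧ (∀ n, ev1 (h n) η = 0) ∧
    ∀ p', ev2 (A p') ξ η = if p' = p then 1 else 0

/-- SEL: choice of vectors. Induction on `l`: first the new `(ξ, η)` by ORT for `A` with the conditions
`f`: the `α_n` and all `A_p'(·, η_j)`, `C_p'(·, ζ_j)`, `E_p'(·, θ_j)` for the old indices `j` (at most `r + 3 N l`), and `h`: the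
`β_n` and all `A_p'(ξ_i, ·)`, `D_p'(·, θ_j)`, `F_p'(·, ζ_j)`; then the new `(ζ, θ)` by ORT for `B` with the `γ_n`, `B_q'(·, θ_j)` (old `j`),
`C_p'(ξ_i, ·)`, `F_p'(η_i, ·)` (all `i`, also the new one), and `δ_n`, `B_q'(ζ_i, ·)`, `E_p'(ξ_i, ·)`, `D_p'(η_i, ·)`. Uses ORT. -/
def SEL_stmt : Prop := ∀ (l N r : ℕ) (K X Y Z W : Type) [Field K] [Fintype X] [Fintype Y] [Fintype Z]
  [Fintype W] (a b c d e f : ℕ), a ≤ N → b ≤ N → c ≤ N → d ≤ N → e ≤ N → f ≤ N →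
  ∀ (A : Fin a → X → Y → K) (B : Fin b → Z → W → K) (C : Fin c → X → Z → K)
    (D : Fin d → Y → W → K) (E : Fin e → X → W → K) (F : Fin f → Y → Z → K)
    (α : Fin r → X → K) (β : Fin r → Y → K) (γ : Fin r → Z → K) (δ : Fin r → W → K),
  Reg (2 * (r + 3 * N * l) + 2 * N ^ 2) A → Reg (2 * (r + 3 * N * l) + 2 * N ^ 2) B →
  ∀ (p : Fin a) (q : Fin b), ∃ (ξ : Fin l → X → K) (η : Fin l → Y → K) (ζ : Fin l → Z → K)
    (θ : Fin l → W → K),
    (∀ n i, ev1 (α n) (ξ i) = 0) ∧ (∀ n i, ev1 (β n) (η i) = 0) ∧ (∀ n i, ev1 (γ n) (ζ i) = 0) ∧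
    (∀ n i, ev1 (δ n) (θ i) = 0) ∧
    (∀ p' i j, ev2 (A p') (ξ i) (η j) = if p' = p ∧ i = j then 1 else 0) ∧
    (∀ q' i j, ev2 (B q') (ζ i) (θ j) = if q' = q ∧ i = j then 1 else 0) ∧
    (∀ p' i j, ev2 (C p') (ξ i) (ζ j) = 0) ∧ (∀ p' i j, ev2 (D p') (η i) (θ j) = 0) ∧
    (∀ p' i j, ev2 (E p') (ξ i) (θ j) = 0) ∧ (∀ p' i j, ev2 (F p') (η i) (ζ j) = 0)

/-- EV: values of slices and of products on vectors. -/
def EV_stmt : Prop := ∀ (K X Y Z W : Type) [Field K] [Fintype X] [Fintype Y] [Fintype Z] [Fintype W]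
  (u : X → K) (v : Y → K) (w : Z → K) (q : W → K),
  (∀ (r : ℕ) (a : Fin r → X → K) (a' : Fin r → Y → Z → W → K) (b : Fin r → Y → K)
    (b' : Fin r → X → Z → W → K) (c : Fin r → Z → K) (c' : Fin r → X → Y → W → K)
    (d : Fin r → W → K) (d' : Fin r → X → Y → Z → K), (∀ n, ev1 (a n) u = 0) →
    (∀ n, ev1 (b n) v = 0) → (∀ n, ev1 (c n) w = 0) → (∀ n, ev1 (d n) q = 0) →
    ev4 (slSum a a' b b' c c' d d') u v w q = 0) ∧
  (∀ (a b : ℕ) (t : Fin a → Fin b → K) (A : Fin a → X → Y → K) (B : Fin b → Z → W → K),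
    ev4 (pr t A B) u v w q = ∑ i, ∑ j, t i j * (ev2 (A i) u v * ev2 (B j) w q)) ∧
  (∀ (a b : ℕ) (t : Fin a → Fin b → K) (C : Fin a → X → Z → K) (D : Fin b → Y → W → K),
    ev4 (fun x y z w => pr t C D x z y w) u v w q =
      ∑ i, ∑ j, t i j * (ev2 (C i) u w * ev2 (D j) v q)) ∧
  (∀ (a b : ℕ) (t : Fin a → Fin b → K) (E : Fin a → X → W → K) (F : Fin b → Y → Z → K),
    ev4 (fun x y z w => pr t E F x w y z) u v w q =
      ∑ i, ∑ j, t i j * (ev2 (E i) u q * ev2 (F j) v w)) ∧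
  (∀ T T' : X → Y → Z → W → K,
    ev4 (fun x y z w => T x y z w + T' x y z w) u v w q = ev4 T u v w q + ev4 T' u v w q)

/-- HYV: only `σ = 1`, `τ = ρ` contribute, `l!` terms `c^l`. -/
def HYV_stmt : Prop := ∀ (K : Type) [Field K] (l : ℕ) (c : K),
  hyp l (fun i j k m : Fin l => if i = j ∧ k = m then c else 0) id id id id =
    (l.factorial : K) * c ^ l

/-- CON: if `hyp l` vanishes on all vectors then the coefficients `t` are zero. SEL (with the factors `a, b, c, d` of the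
slices of `S`) and EV: `ev4 T (ξ i) (η j) (ζ k) (θ m) = t p q` if `i = j` and `k = m`, and `0` otherwise; HYV. Uses SEL, EV, HYV. -/
def CON_stmt : Prop := ∀ (l N r : ℕ) (K X Y Z W : Type) [Field K] [Fintype X] [Fintype Y] [Fintype Z]
  [Fintype W], (l.factorial : K) ≠ 0 → ∀ (a b c d e f : ℕ), a ≤ N → b ≤ N → c ≤ N → d ≤ N → e ≤ N →
  f ≤ N → ∀ (T S : X → Y → Z → W → K) (t : Fin a → Fin b → K) (u : Fin c → Fin d → K)
    (v : Fin e → Fin f → K) (A : Fin a → X → Y → K) (B : Fin b → Z → W → K)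
    (C : Fin c → X → Z → K) (D : Fin d → Y → W → K) (E : Fin e → X → W → K)
    (F : Fin f → Y → Z → K), Sl r S →
  (∀ x y z w, T x y z w = S x y z w + pr t A B x y z w + pr u C D x z y w + pr v E F x w y z) →
  Reg (2 * (r + 3 * N * l) + 2 * N ^ 2) A → Reg (2 * (r + 3 * N * l) + 2 * N ^ 2) B →
  (∀ ξ η ζ θ, hyp l (ev4 T) ξ η ζ θ = 0) → ∀ p q, t p q = 0

/-- CONA: all coefficients are zero, so `T` is a sum of slices. `t`: CON. `u`: CON for `(x, z, y, w) ↦ T x y z w`, with the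
families `C, D`, `A, B`, `E`, `F` transposed. `v`: CON for `(x, w, y, z) ↦ T x y z w`, with `E, F`, `A`, `B` transposed,
`C`, `D` transposed. (HSY, and `ev4` of the permuted tensor.) Uses CON, HSY. -/
def CONA_stmt : Prop := ∀ (l N r : ℕ) (K X Y Z W : Type) [Field K] [Fintype X] [Fintype Y] [Fintype Z]
  [Fintype W], (l.factorial : K) ≠ 0 → ∀ (a b c d e f : ℕ), a ≤ N → b ≤ N → c ≤ N → d ≤ N → e ≤ N →
  f ≤ N → ∀ T : X → Y → Z → W → K,
  DecReg (2 * (r + 3 * N * l) + 2 * N ^ 2) r a b c d e f T →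
  (∀ ξ η ζ θ, hyp l (ev4 T) ξ η ζ θ = 0) → Sl r T

/-- SB4: final theorem (B). `l = 0` trivial. If `hyp l T x y z w ≠ 0` for some points: HLB. Otherwise let `s < l` with
`hyp s T ≠ 0` at some points and `hyp (s+1) T = 0` everywhere (`hyp 0 = 1`); EXP gives `Dec (l^3) (s^2) ... (s^2) T`
(`s^3 ≤ l^3`), REGB with `N = 6 l^2`, `ρ r = 2 (r + 3 N l) + 2 N^2`, then HML, CONA: `Sl r T` with `r ≤ r₁`, and
`SumOf (slices 4) T (4 r₁)` by SLC; `G l = 4 r₁ + 1`. Uses HLB, EXP, REGB, HML, CONA, SLC. -/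
def SB4_stmt : Prop := ∃ G : ℕ → ℕ, ∀ (l : ℕ) (K : Type) [Field K], (l.factorial : K) ≠ 0 →
  ∀ (Q : Fin 4 → Type) [∀ α, Finite (Q α)] (T : ((α : Fin 4) → Q α) → K),
  (G l : ℕ∞) ≤ rank (slices 4) T →
  ∃ X : (α : Fin 4) → Finset (Q α), (∀ α, (X α).card ≤ l) ∧ (l : ℕ∞) ≤ rank (slices 4) (minor T X)

/-! ## 3. Reduction to order types (for `SA4`) -/

/-- JC: joint colouring. The joint map has at most `μ^J` values (product of the ranges); embed them in `Fin (μ^J)`. -/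
def JC_stmt : Prop := ∀ (K ι : Type) [Field K] (J μ : ℕ) (φ : Fin J → ι → K), (∀ j, Few μ (φ j)) →
  ∃ (F : ι → Fin (μ ^ J)) (val : Fin J → Fin (μ ^ J) → K), ∀ j x, φ j x = val j (F x)

/-- CMR: compression of eight integers (replace an integer by the number of smaller ones among the eight). -/
def CMR_stmt : Prop := ∀ x y : Fin 4 → ℤ, ∃ x' y' : Fin 4 → Fin 8,
  SameOT x (fun α => ((x' α : ℕ) : ℤ)) ∧ SameOT y (fun α => ((y' α : ℕ) : ℤ)) ∧
  ∀ α, x α = y α → x' α = y' α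

/-- TR: transfer of the dependence on coordinates. Uses CMR. -/
def TR_stmt : Prop := ∀ (m N : ℕ), 8 ≤ N → ∀ (V : (Fin 4 → ℤ) → Fin m), OT V →
  ∀ (Q : Fin 4 → Type) (F : ((α : Fin 4) → Q α) → Fin m) (f : (α : Fin 4) → Fin N → Q α),
  (∀ i : Fin 4 → Fin N, F (fun α => f α (i α)) = V (fun α => ((i α : ℕ) : ℤ))) →
  ∀ (K : Type) (φ : Fin m → K) (I : Finset (Fin 4)),
  (∀ x y : (α : Fin 4) → Q α, (∀ α ∈ I, x α = y α) → φ (F x) = φ (F y)) →
  Dp I (fun x => φ (V x))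

/-- CP: functions of the order type which depend on one or two coordinates. -/
def CP_stmt : Prop := ∀ (K : Type) [Field K] (ψ : (Fin 4 → ℤ) → K), OT ψ →
  (∀ α, Dp {α} ψ → ∀ x, ψ x = ψ 0) ∧
  (∀ α β, α ≠ β → Dp {α, β} ψ → ∃ A : Ordering → K, ∀ x, ψ x = A (cmp (x α) (x β)))

/-- FRM: a sum of slices and pair products of functions of the order type is of the form `Form4`. The factors
`sa, sb, sc, sd` are constant (CP), `A, ..., F` are functions of `cmp` of two coordinates (CP). `g 0 = ∑ sa_n(0) sa'_n` etc.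
Uses CP. -/
def FRM_stmt : Prop := ∀ (K : Type) [Field K] (r a b c d e f : ℕ) (V : (Fin 4 → ℤ) → K)
  (sa sa' sb sb' sc sc' sd sd' : Fin r → (Fin 4 → ℤ) → K)
  (A : Fin a → (Fin 4 → ℤ) → K) (B : Fin b → (Fin 4 → ℤ) → K) (C : Fin c → (Fin 4 → ℤ) → K)
  (D : Fin d → (Fin 4 → ℤ) → K) (E : Fin e → (Fin 4 → ℤ) → K) (F : Fin f → (Fin 4 → ℤ) → K)
  (t : Fin a → Fin b → K) (u : Fin c → Fin d → K) (v : Fin e → Fin f → K),
  (∀ n, OT (sa n) ∧ Dp {0} (sa n)) → (∀ n, OT (sa' n) ∧ Dp {1, 2, 3} (sa' n)) →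
  (∀ n, OT (sb n) ∧ Dp {1} (sb n)) → (∀ n, OT (sb' n) ∧ Dp {0, 2, 3} (sb' n)) →
  (∀ n, OT (sc n) ∧ Dp {2} (sc n)) → (∀ n, OT (sc' n) ∧ Dp {0, 1, 3} (sc' n)) →
  (∀ n, OT (sd n) ∧ Dp {3} (sd n)) → (∀ n, OT (sd' n) ∧ Dp {0, 1, 2} (sd' n)) →
  (∀ n, OT (A n) ∧ Dp {0, 1} (A n)) → (∀ n, OT (B n) ∧ Dp {2, 3} (B n)) →
  (∀ n, OT (C n) ∧ Dp {0, 2} (C n)) → (∀ n, OT (D n) ∧ Dp {1, 3} (D n)) →
  (∀ n, OT (E n) ∧ Dp {0, 3} (E n)) → (∀ n, OT (F n) ∧ Dp {1, 2} (F n)) →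
  (∀ x, V x = ∑ n, sa n x * sa' n x + ∑ n, sb n x * sb' n x + ∑ n, sc n x * sc' n x +
    ∑ n, sd n x * sd' n x + ∑ i, ∑ j, t i j * (A i x * B j x) +
    ∑ i, ∑ j, u i j * (C i x * D j x) + ∑ i, ∑ j, v i j * (E i x * F j x)) →
  ∃ F₁ F₂ F₃ : Ordering → Ordering → K, Form4 V F₁ F₂ F₃

/-! ## 4. Words in two regions -/

/-- FS4: a full tensor on `ι` has slice rank `card ι` (as FS of `SpecA`). -/
def FS4_stmt : Prop := ∀ (K : Type) [Field K] (Q : Fin 4 → Type) (T : ((α : Fin 4) → Q α) → K)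
  (ι : Type) [Fintype ι] (x : ι → Q 0) (y : ι → Q 1) (z : ι → Q 2) (w : ι → Q 3)
  (X : (α : Fin 4) → Finset (Q α)), (∀ i, x i ∈ X 0) → (∀ i, y i ∈ X 1) → (∀ i, z i ∈ X 2) →
  (∀ i, w i ∈ X 3) → Full4 (fun i j k m => T (mk4 (x i) (y j) (z k) (w m))) →
  (Fintype.card ι : ℕ∞) ≤ rank (slices 4) (minor T X)

/-- RB: a matrix which vanishes on `U × V` has rank at most `codim U + codim V`. -/
def RB_stmt : Prop := ∀ (K : Type) [Field K] (l : ℕ) (A : Fin l → Fin l → K)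
  (U V : Submodule K (Fin l → K)), (∀ u ∈ U, ∀ v ∈ V, ev2 A u v = 0) →
  Module.finrank K U + Module.finrank K V + (Matrix.of A).rank ≤ 2 * l

/-- DT: determinants and ranks, `l ≥ 1`. (1) `U - c J`: the differences of consecutive rows are `e_i`, the last row is
`(-c, ..., -c, 1 - c)`: determinant `1 - c`. (2) `U0 - c J`: the differences of consecutive rows are `e_(i+1)`, the last row
is `(-c, ..., -c)`: nonzero determinant for `c ≠ 0`. (3) `p diag(1, ..., 1, 0) + q J` has determinant `p^(l-1) q`. (4) `x I + y U0` is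
upper triangular, a perturbation of rank one `z J` keeps rank `≥ l - 1`; (5), (6) `U - c J`, `U0 - c J` have rank `≥ l - 1`. -/
def DT_stmt : Prop := ∀ (K : Type) [Field K] (l : ℕ), 1 ≤ l →
  (∀ c : K, c ≠ 1 → (Matrix.of (fun i j : Fin l => (if i ≤ j then (1 : K) else 0) - c)).det ≠ 0) ∧
  (∀ c : K, c ≠ 0 → (Matrix.of (fun i j : Fin l => (if i < j then (1 : K) else 0) - c)).det ≠ 0) ∧
  (∀ p q : K, p ≠ 0 → q ≠ 0 →
    (Matrix.of (fun i j : Fin l => (if i = j ∧ i.1 + 1 ≠ l then p else 0) + q)).det ≠ 0) ∧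
  (∀ x y z : K, x ≠ 0 → l ≤ (Matrix.of (fun i j : Fin l =>
    (if i = j then x else 0) + (if i < j then y else 0) + z)).rank + 1) ∧
  (∀ c : K, l ≤ (Matrix.of (fun i j : Fin l => (if i ≤ j then (1 : K) else 0) - c)).rank + 1) ∧
  (∀ c : K, l ≤ (Matrix.of (fun i j : Fin l => (if i < j then (1 : K) else 0) - c)).rank + 1)

/-- POS: comparisons of the positions. -/
def POS_stmt : Prop := ∀ (l : ℕ) (i j : Fin l),
  cmp (pA i) (pB j) = (if i ≤ j then .lt else .gt) ∧ cmp (pB i) (pA j) = (if i < j then .lt else .gt) ∧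
  cmp (pC i) (pC j) = cmp i j ∧
  cmp (pC i) (pD j) = (if i = j then (if j.1 + 1 = l then .lt else .eq) else cmp i j)

/-- PF: `X ⊗ Y + κ J ⊗ J`, `X`, `Y` invertible, `l ≥ 2`. Suppose it vanishes on `U₁ × ... × U₄`, `c12 + c34 ≤ l - 1`. Then `X ≠ 0` on
`U₁ × U₂`, `Y ≠ 0` on `U₃ × U₄` (RB). `X(u₁,u₂) Y(u₃,u₄) = -κ (∑u₁)(∑u₂)(∑u₃)(∑u₄)`; so `X` is a nonzero multiple of `J` on
`U₁ × U₂` (fix `u₃, u₄` with `Y ≠ 0`), say `X = μ J`; then the restriction to `{u₁ ∈ U₁ : ∑ u₁ = 0} × U₂` vanishes: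
`l ≤ c12 + 1`. Similarly `l ≤ c34 + 1`: `2 l - 2 ≤ l - 1`, `l ≤ 1`. Uses RB. -/
def PF_stmt : Prop := ∀ (K : Type) [Field K] (l : ℕ), 2 ≤ l → ∀ (X Y : Fin l → Fin l → K) (κ : K),
  (Matrix.of X).det ≠ 0 → (Matrix.of Y).det ≠ 0 →
  Full4 (fun i j k m : Fin l => X i j * Y k m + κ)

/-- WBF: `X ⊗ B + Z ⊗ J` with `X` invertible; `B = U` and `X + Z ≠ 0`, or `B = U0` and `Z ≠ 0`; `l ≥ 2` (`l ≥ 1` is enough). Suppose it
vanishes on `U₁ × ... × U₄`, `c12 + c34 ≤ l - 1`. There are `u₁, u₂` with `X(u₁,u₂) ≠ 0` (RB): so `B = λ J` on `U₃ × U₄`, and the rank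
of `B - λ J` is at most `c34 ≤ l - 1`: `λ = 1` if `B = U`, `λ = 0` if `B = U0` (DT), and the rank is at least `l - 1`, so
`c34 = l - 1`, `c12 = 0`, `U₁ = U₂ = K^l`. `J ≠ 0` on `U₃ × U₄` (otherwise `U`, or `U0 - J`, would vanish there: rank `l`). So
`λ X + Z = 0` on `K^l × K^l`. Uses RB, DT. -/
def WBF_stmt : Prop := ∀ (K : Type) [Field K] (l : ℕ), 2 ≤ l → ∀ (X Z : Fin l → Fin l → K),
  (Matrix.of X).det ≠ 0 →
  ((∃ i j, X i j + Z i j ≠ 0) →
    Full4 (fun i j k m : Fin l => X i j * (if k ≤ m then 1 else 0) + Z i j)) ∧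
  ((∃ i j, Z i j ≠ 0) →
    Full4 (fun i j k m : Fin l => X i j * (if k < m then 1 else 0) + Z i j))

/-- KER: if `U0` vanishes on `U × V`, `dim U + dim V ≥ l + 1`, then `e_last ∈ U` and `e_0 ∈ V`: the image of `U` under
`u ↦ U0(u, ·)` is in the annihilator of `V`, of dimension `l - dim V ≤ dim U - 1`, so there is `0 ≠ u ∈ U` with
`U0(u, ·) = 0`, i.e. all partial sums `u_0 + ... + u_(m-1)`, `m < l`, vanish: `u` is a multiple of `e_last`. Similarly for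
`V` and for `L0`. -/
def KER_stmt : Prop := ∀ (K : Type) [Field K] (l : ℕ) (U V : Submodule K (Fin (l + 1) → K)),
  l + 2 ≤ Module.finrank K U + Module.finrank K V →
  ((∀ u ∈ U, ∀ v ∈ V, ev2 (fun i j : Fin (l + 1) => if i < j then (1 : K) else 0) u v = 0) →
    Pi.single (Fin.last l) 1 ∈ U ∧ Pi.single 0 1 ∈ V) ∧
  ((∀ u ∈ U, ∀ v ∈ V, ev2 (fun i j : Fin (l + 1) => if j < i then (1 : K) else 0) u v = 0) →
    Pi.single 0 1 ∈ U ∧ Pi.single (Fin.last l) 1 ∈ V)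

/-- WCF: `M = p I ⊗ I + (a₁ U0 + a₂ I) ⊗ J + J ⊗ (b₁ U0 + b₂ I) + f J ⊗ J`, `p ≠ 0`, is full for `l ≥ 2` except if
`a₁ = b₁ = 0` and `f p = a₂ b₂`. Suppose `M` vanishes on `U₁ × ... × U₄`, `c12 + c34 ≤ l - 1`. One of `c12`, `c34` is `≤ l - 2`; the
statement is symmetric (exchange the pairs of directions), so let `c12 ≤ l - 2`. On `U₁ × U₂` the form `I` is not a combination of
`J` and `U0` (DT (4), RB), so there are finitely many pairs `(u, v) ∈ U₁ × U₂` with sums `∑ I(u,v) = 1`, `∑ J(u,v) = 0`,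
`∑ U0(u,v) = 0`; sum the equations `M(u, v, w, q) = 0`: `p I + a₂ J = 0` on `U₃ × U₄`. Its rank is `≥ l - 1`: so `c34 = l - 1`,
`c12 = 0`. `I, J, U0` are independent on `K^l × K^l` (`l ≥ 2`); as above (explicitly: `e_1 ⊗ e_0` has values
`I = 0, J = 1, U0 = 0`, and `e_0 ⊗ e_1 - e_1 ⊗ e_0` has `I = 0, J = 0, U0 = 1`): `f J + b₁ U0 + b₂ I = 0` and `a₁ J = 0` on
`U₃ × U₄`. `J ≠ 0` there (else `p I = 0`, rank `l`). So `a₁ = 0`, `I = -(a₂/p) J`, `b₁ U0 = (a₂ b₂ / p - f) J` there. `b₁ = 0`: excluded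
case. `b₁ ≠ 0`: `U0 = κ J`, so `κ = 0` (DT (2), RB), `U0 = 0`; `I = λ J`, so `U = I + U0 = λ J`, `λ = 1` (DT (1), RB); so
`L0 = J - I - U0 = 0` on `U₃ × U₄`; KER (`dim U₃ + dim U₄ = l + 1`): `e_0 ∈ U₃` and `e_last ∈ U₄`, but `U0(e_0, e_last) = 1`.
Uses RB, DT, KER. -/
def WCF_stmt : Prop := ∀ (K : Type) [Field K] (l : ℕ), 2 ≤ l → ∀ p a₁ a₂ b₁ b₂ f : K, p ≠ 0 →
  ¬ (a₁ = 0 ∧ b₁ = 0 ∧ f * p = a₂ * b₂) →
  Full4 (fun i j k m : Fin l => (if i = j ∧ k = m then p else 0) +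
    ((if i < j then a₁ else 0) + (if i = j then a₂ else 0)) +
    ((if k < m then b₁ else 0) + (if k = m then b₂ else 0)) + f)

/-- WA: case `D = F(<,<) - F(<,>) - F(>,<) + F(>,>) ≠ 0`. Strict words in both regions: with `q = F(<,>) - F(>,>)`,
`r = F(>,<) - F(>,>)` and the matrices `A`, `B` of `<` the tensor is `D (A + (r/D) J) ⊗ (B + (q/D) J) + κ J ⊗ J`. For `A` take
`x = pA, y = pB` (`A = U`) if `r/D ≠ -1`, `x = pB, y = pA` (`A = U0`) if `r/D = -1` (DT); similarly `B`. Uses PF, DT, POS. -/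
def WA_stmt : Prop := ∀ (K : Type) [Field K] (F : Ordering → Ordering → K),
  F .lt .lt - F .lt .gt - F .gt .lt + F .gt .gt ≠ 0 → ∀ l, 2 ≤ l → GoodF F l

/-- WB: case `D = 0`, `F(=,<) - F(=,>) - F(>,<) + F(>,>) ≠ 0`. Put `d = F(>,<) - F(>,>) = F(<,<) - F(<,>)`, `e = F(=,<) - F(=,>) ≠ d`.
Region I: `x = pC` and `y = pC` if `d = 0`, `y = pD` if `d ≠ 0`. Region II strict: with the matrix `B` of `<` the tensor is
`X ⊗ B + Z ⊗ J`, `X_ij = F(r,<) - F(r,>)`, `Z_ij = F(r,>)`, `r = cmp (x i) (y j)`; so `X = (e - d) I` if `d = 0`, and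
`X = (e - d) diag(1, ..., 1, 0) + d J` if `d ≠ 0`: invertible (DT). `z = pA, w = pB` (`B = U`) if `X + Z ≠ 0`, otherwise `z = pB, w = pA`
(`B = U0`, and `Z = -X ≠ 0`). Uses WBF, DT, POS. -/
def WB_stmt : Prop := ∀ (K : Type) [Field K] (F : Ordering → Ordering → K),
  F .lt .lt - F .lt .gt - F .gt .lt + F .gt .gt = 0 →
  F .eq .lt - F .eq .gt - F .gt .lt + F .gt .gt ≠ 0 → ∀ l, 2 ≤ l → GoodF F l

/-- WC: case that only `p = F(=,=) - F(=,>) - F(>,=) + F(>,>) ≠ 0`. `f = F(>,>)`, `a₁ = F(<,>) - f`, `a₂ = F(=,>) - f`,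
`b₁ = F(>,<) - f`, `b₂ = F(>,=) - f`; `F(r,s) = f + a(r) + b(s) + p [r = s = eq]`. If not (`a₁ = b₁ = 0`, `f p = a₂ b₂`): `x = y = z = w = pC`,
WCF. Otherwise the tensor is `p (A + (b₂/p) J) ⊗ (B + (a₂/p) J)` with the matrices `A`, `B` of `=`; take `x = pC` and `y = pC` if
`b₂ = 0`, `y = pD` if `b₂ ≠ 0`; similarly `z`, `w` with `a₂`; DT (3), PF with `κ = 0`. Uses WCF, PF, DT, POS. -/
def WC_stmt : Prop := ∀ (K : Type) [Field K] (F : Ordering → Ordering → K),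
  F .lt .lt - F .lt .gt - F .gt .lt + F .gt .gt = 0 →
  F .eq .lt - F .eq .gt - F .gt .lt + F .gt .gt = 0 →
  F .lt .eq - F .lt .gt - F .gt .eq + F .gt .gt = 0 →
  F .eq .eq - F .eq .gt - F .gt .eq + F .gt .gt ≠ 0 → ∀ l, 2 ≤ l → GoodF F l

/-- W4: if the four differences vanish then `F(r,s) = F(r,>) + (F(>,s) - F(>,>))`. If `F(<,=) - F(<,>) - F(>,=) + F(>,>) ≠ 0`, apply
WB to `F(s,r)` and exchange the pairs of directions in `Full4`. Uses WA, WB, WC. -/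
def W4_stmt : Prop := ∀ (K : Type) [Field K] (F : Ordering → Ordering → K), ¬ Add2 F →
  ∀ l, 2 ≤ l → GoodF F l

/-- RG: regions. Positions `x, y` of W4 in `0, ..., 2l - 1`, and `2l + z`, `2l + w`. There the `Low` part
`∑ g_α` is `a(cmp x y) + b(cmp z w)` (`g_0` does not depend on the first coordinate and is a function of the order type: on
`x, y < z, w` it depends only on `cmp z w`, similarly `g_1`; `g_2`, `g_3` depend on `cmp x y` only), and `G`, `H` give the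
constants `G(<,<)`, `H(<,<)`. So `V = F'(cmp x y, cmp z w)` with `F' = F + a + b + const` not `Add2`. Uses W4. -/
def RG_stmt : Prop := ∀ (K : Type) [Field K] (V : (Fin 4 → ℤ) → K), OT V →
  ∀ F G H : Ordering → Ordering → K, Form4 V F G H → ¬ Add2 F → ∀ l, 2 ≤ l →
  ∃ x y z w : Fin l → Fin (4 * l), Full4 (fun i j k m : Fin l =>
    V ![((x i : ℕ) : ℤ), ((y j : ℕ) : ℤ), ((z k : ℕ) : ℤ), ((w m : ℕ) : ℤ)])

/-- RG3: if `V` is of the form `Form4` and not `Low` then one of `F, G, H` is not `Add2` (an `Add2` term is `Low`). `F`: RG. `G`: RG for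
`V'(x₀,x₁,x₂,x₃) = V(x₀,x₂,x₁,x₃)`, which is of the form `Form4 V' G F H'`, `H'(r,s) = H(r, s.swap)`; `Full4` is invariant under permutations
of the directions. `H`: `V'(x₀,x₁,x₂,x₃) = V(x₀,x₂,x₃,x₁)`: `Form4 V' H F' G'`, `F'(r,s) = F(r, s.swap)`, `G'(r,s) = G(r, s.swap)`. Uses RG. -/
def RG3_stmt : Prop := ∀ (K : Type) [Field K] (V : (Fin 4 → ℤ) → K), OT V →
  ∀ F G H : Ordering → Ordering → K, Form4 V F G H → ¬ Low V → ∀ l, 2 ≤ l →
  ∃ x y z w : Fin l → Fin (4 * l), Full4 (fun i j k m : Fin l =>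
    V ![((x i : ℕ) : ℤ), ((y j : ℕ) : ℤ), ((z k : ℕ) : ℤ), ((w m : ℕ) : ℤ)])

/-- SAF: the case that `hyp s ≠ 0` somewhere and `hyp (s+1) = 0` everywhere. EXP: all factors, as functions of the full tuple
(and `T` itself), have at most `μ = m^((s+1)^4 + 1)` values (`m ≥ 1`, else `T = 0` on an empty set, rank 0); JC with `J = 1 + 8 s^3 + 6 s^2`: colouring
`F` with `μ^J` colours; P1 for `d = 4`, `N = max (4 l) 8`: `V` (colours), `OT`, `val_T ∘ V` not `Low`. TR: the functions `val_j ∘ V` depend on the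
right coordinates. For every `x : Fin 4 → ℤ` there is `i : Fin 4 → Fin N` with the same order type (CMR), so the equation of EXP holds for the
`val_j(V x)`: FRM, RG3, FS4. Uses EXP, JC, P1, TR, CMR, FRM, RG3, FS4. -/
def SAF_stmt : Prop := ∀ m l s : ℕ, 2 ≤ l → ∃ G : ℕ, ∀ (K : Type) [Field K] (Q : Fin 4 → Type)
  (T : ((α : Fin 4) → Q α) → K), Few m T →
  (∃ x y z w, hyp s (fun a b c d => T (mk4 a b c d)) x y z w ≠ 0) →
  (∀ x y z w, hyp (s + 1) (fun a b c d => T (mk4 a b c d)) x y z w = 0) →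
  (G : ℕ∞) ≤ rank (slices 4) T →
  ∃ X : (α : Fin 4) → Finset (Q α), (∀ α, (X α).card ≤ l) ∧ (l : ℕ∞) ≤ rank (slices 4) (minor T X)

/-- SA4: final theorem (A4). `l = 0`: trivial; `l = 1`: `T ≠ 0`. `l ≥ 2`: if `hyp l ≠ 0` somewhere: HLB; otherwise there is
`s < l` as in SAF; `G m l` the maximum over `s < l`. Uses HLB, SAF. -/
def SA4_stmt : Prop := ∃ G : ℕ → ℕ → ℕ, ∀ (K : Type) [Field K] (Q : Fin 4 → Type)
  (T : ((α : Fin 4) → Q α) → K) (m l : ℕ), Few m T → (G m l : ℕ∞) ≤ rank (slices 4) T →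
  ∃ X : (α : Fin 4) → Finset (Q α), (∀ α, (X α).card ≤ l) ∧ (l : ℕ∞) ≤ rank (slices 4) (minor T X)

end Pool.Agent.helper35.MR
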